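import Mathlib

/-!
Arithmetical sets and relations: a small calculus.
-/

set_option autoImplicit false

namespace Pool.Agent.Work.MP_69fea5_lc.AC

open Encodable

/-- The arithmetical sets of natural numbers: the smallest class containing the computable sets
and closed under complement, intersection and projection. -/
inductive Arith : (ℕ → Prop) → Prop
  | comp {p : ℕ → Prop} (h : ComputablePred p) : Arith p
  | compl {p : ℕ → Prop} (h : Arith p) : Arith fun n => ¬ p n
  | inter {p q : ℕ → Prop} (hp : Arith p) (hq : Arith q) : Arith fun n => p n ∧ q n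
  | proj {p : ℕ → Prop} (h : Arith p) : Arith fun n => ∃ m, p (Nat.pair n m)

theorem computablePred_subst {α β : Type*} [Primcodable α] [Primcodable β] {p : β → Prop}
    (hp : ComputablePred p) {f : α → β} (hf : Computable f) : ComputablePred fun a => p (f a) := by
  obtain ⟨g, hg, rfl⟩ := ComputablePred.computable_iff.1 hp
  exact ComputablePred.computable_iff.2 ⟨fun a => g (f a), hg.comp hf, rfl⟩

theorem Arith.subst {p : ℕ → Prop} (hp : Arith p) :
    ∀ {f : ℕ → ℕ}, Computable f → Arith fun n => p (f n) := by
  induction hp with
  | comp h => intro f hf; exact .comp (computablePred_subst h hf)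
  | compl _ ih => intro f hf; exact .compl (ih hf)
  | inter _ _ ih1 ih2 => intro f hf; exact .inter (ih1 hf) (ih2 hf)
  | @proj p _ ih =>
    intro f hf
    have h1 : Computable fun x : ℕ => Nat.pair (f x.unpair.1) x.unpair.2 :=
      (Primrec₂.natPair.to_comp).comp (hf.comp (Computable.fst.comp Computable.unpair))
        (Computable.snd.comp Computable.unpair)
    have h2 := Arith.proj (ih h1)
    simpa using h2

theorem Arith.congr {p q : ℕ → Prop} (hp : Arith p) (h : ∀ n, p n ↔ q n) : Arith q := by
  have : p = q := funext fun n => propext (h n)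
  exact this ▸ hp

/-- Arithmetical predicates on an encodable type. -/
def AR {α : Type*} [Primcodable α] (p : α → Prop) : Prop :=
  Arith fun n => ∃ a, (decode n : Option α) = some a ∧ p a

section

variable {α β γ : Type*} [Primcodable α] [Primcodable β] [Primcodable γ]

theorem AR.congr {p q : α → Prop} (hp : AR p) (h : ∀ a, p a ↔ q a) : AR q := by
  have : p = q := funext fun n => propext (h n)
  exact this ▸ hp

theorem AR.of_comp {p : α → Prop} (h : ComputablePred p) : AR p := by
  obtain ⟨g, hg, rfl⟩ := ComputablePred.computable_iff.1 h
  have h1 : Computable fun n : ℕ => ((decode n : Option α).map g).getD false :=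
    Computable.option_getD (Computable.option_map Computable.decode (hg.comp Computable.snd))
      (Computable.const false)
  refine .comp (ComputablePred.computable_iff.2 ⟨_, h1, ?_⟩)
  funext n
  cases h : (decode n : Option α) with
  | none => simp
  | some a => simp

theorem isSome_comp : ComputablePred fun n : ℕ => ((decode n : Option α).isSome : Prop) :=
  ComputablePred.computable_iff.2
    ⟨fun n => (decode n : Option α).isSome, Primrec.option_isSome.to_comp.comp Computable.decode,
      rfl⟩

theorem AR.subst {p : β → Prop} (hp : AR p) {f : α → β} (hf : Computable f) :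
    AR fun a => p (f a) := by
  have hg : Computable fun n : ℕ =>
      ((decode n : Option α).map fun a => encode (f a)).getD 0 :=
    Computable.option_getD (Computable.option_map Computable.decode
      (Computable.encode.comp (hf.comp Computable.snd))) (Computable.const 0)
  have h1 := Arith.inter (Arith.comp (isSome_comp (α := α))) (Arith.subst hp hg)
  refine h1.congr fun n => ?_
  cases h : (decode n : Option α) with
  | none => simp
  | some a => simp

theorem AR.not {p : α → Prop} (hp : AR p) : AR fun a => ¬ p a := by
  have h1 := Arith.inter (Arith.comp (isSome_comp (α := α))) (Arith.compl hp)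
  refine h1.congr fun n => ?_
  cases h : (decode n : Option α) with
  | none => simp
  | some a => simp

theorem AR.and {p q : α → Prop} (hp : AR p) (hq : AR q) : AR fun a => p a ∧ q a := by
  refine (Arith.inter hp hq).congr fun n => ?_
  cases h : (decode n : Option α) with
  | none => simp
  | some a => simp

theorem AR.or {p q : α → Prop} (hp : AR p) (hq : AR q) : AR fun a => p a ∨ q a :=
  (hp.not.and hq.not).not.congr fun a => by tauto

theorem AR.imp {p q : α → Prop} (hp : AR p) (hq : AR q) : AR fun a => p a → q a :=
  (hp.and hq.not).not.congr fun a => by tauto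

theorem AR.iff {p q : α → Prop} (hp : AR p) (hq : AR q) : AR fun a => (p a ↔ q a) :=
  ((hp.imp hq).and (hq.imp hp)).congr fun a => by tauto

theorem AR.ex {p : α → β → Prop} (hp : AR fun x : α × β => p x.1 x.2) :
    AR fun a => ∃ b, p a b := by
  refine (Arith.proj hp).congr fun n => ?_
  constructor
  · rintro ⟨m, ⟨a, b⟩, h, hab⟩
    rw [Encodable.decode_prod_val] at h
    simp only [Nat.unpair_pair, Option.bind_eq_some_iff, Option.map_eq_some_iff,
      Prod.mk.injEq] at h
    obtain ⟨a', ha', b', -, rfl, rfl⟩ := h
    exact ⟨a', ha', b', hab⟩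
  · rintro ⟨a, ha, b, hab⟩
    refine ⟨encode b, (a, b), ?_, hab⟩
    rw [Encodable.decode_prod_val]
    simp [ha]

theorem AR.all {p : α → β → Prop} (hp : AR fun x : α × β => p x.1 x.2) :
    AR fun a => ∀ b, p a b :=
  (AR.ex (p := fun a b => ¬ p a b) hp.not).not.congr fun a => by simp

theorem AR.const (p : Prop) : AR fun _ : α => p := by
  by_cases h : p
  · exact (AR.of_comp (ComputablePred.computable_iff.2
      ⟨fun _ => true, Computable.const true, rfl⟩)).congr fun _ => by simp [h]
  · exact (AR.of_comp (ComputablePred.computable_iff.2
      ⟨fun _ => false, Computable.const false, rfl⟩)).congr fun _ => by simp [h]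

theorem AR.exFin {ι : Type*} [Finite ι] {p : ι → α → Prop} (h : ∀ i, AR (p i)) :
    AR fun a => ∃ i, p i a := by
  classical
  have := Fintype.ofFinite ι
  have key : ∀ s : Finset ι, AR fun a => ∃ i ∈ s, p i a := by
    intro s
    induction s using Finset.induction_on with
    | empty => exact (AR.const False).congr fun _ => by simp
    | insert i s _ ih => exact ((h i).or ih).congr fun _ => by simp
  exact (key Finset.univ).congr fun _ => by simp

theorem AR.allMem {ι : Type*} {p : ι → α → Prop} (h : ∀ i, AR (p i)) (l : List ι) :
    AR fun a => ∀ i ∈ l, p i a := by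
  induction l with
  | nil => exact (AR.const True).congr fun _ => by simp
  | cons i l ih => exact ((h i).and ih).congr fun _ => by simp

theorem AR.of_primrec {p : α → Prop} [DecidablePred p] (h : PrimrecPred p) : AR p :=
  AR.of_comp h.computablePred

theorem AR.eq [DecidableEq β] {f g : α → β} (hf : Primrec f) (hg : Primrec g) :
    AR fun a => f a = g a :=
  AR.of_primrec (Primrec.eq.comp hf hg)

theorem AR.lt {f g : α → ℕ} (hf : Primrec f) (hg : Primrec g) : AR fun a => f a < g a :=
  AR.of_primrec (Primrec.nat_lt.comp hf hg)

theorem AR.le {f g : α → ℕ} (hf : Primrec f) (hg : Primrec g) : AR fun a => f a ≤ g a :=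
  AR.of_primrec (Primrec.nat_le.comp hf hg)

theorem AR.sub {p : β → Prop} (hp : AR p) {f : α → β} (hf : Primrec f) :
    AR fun a => p (f a) :=
  hp.subst hf.to_comp

theorem AR.mem [DecidableEq β] {f : α → β} {g : α → List β} (hf : Primrec f) (hg : Primrec g) :
    AR fun a => f a ∈ g a := by
  have : AR fun x : α × ℕ => (g x.1)[x.2]? = some (f x.1) :=
    AR.eq (Primrec.list_getElem?.comp (hg.comp .fst) .snd)
      (Primrec.option_some.comp (hf.comp .fst))
  exact (AR.ex (p := fun a i => (g a)[i]? = some (f a)) this).congr fun a =>
    List.mem_iff_getElem?.symm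

/-- quantification over the members of a list -/
theorem AR.allIn [DecidableEq β] {p : α → β → Prop} {g : α → List β} (hg : Primrec g)
    (hp : AR fun x : α × β => p x.1 x.2) : AR fun a => ∀ b ∈ g a, p a b :=
  AR.all (p := fun a b => b ∈ g a → p a b) ((AR.mem .snd (hg.comp .fst)).imp hp)

theorem AR.exIn [DecidableEq β] {p : α → β → Prop} {g : α → List β} (hg : Primrec g)
    (hp : AR fun x : α × β => p x.1 x.2) : AR fun a => ∃ b ∈ g a, p a b :=
  AR.ex (p := fun a b => b ∈ g a ∧ p a b) ((AR.mem .snd (hg.comp .fst)).and hp)

end

theorem AR_nat {p : ℕ → Prop} : AR p ↔ Arith p := by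
  unfold AR
  simp

end Pool.Agent.Work.MP_69fea5_lc.AC
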