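import Mathlib

/-!
Finite sums of lists, reservoirs, and the half match lemma.
-/

set_option autoImplicit false

namespace Pool.Agent.Work.MP_69fea5_lc.AC

/-- The list of all sums of nonempty sublists of a list. -/
def FSl (l : List ℕ) : List ℕ :=
  l.foldr (fun a acc => a :: (acc ++ acc.map (fun x => a + x))) []

/-- The list of all sums of sublists of a list. -/
def FS0 (l : List ℕ) : List ℕ := 0 :: FSl l

theorem FSl_nil : FSl [] = [] := rfl

theorem FSl_cons (a : ℕ) (l : List ℕ) :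
    FSl (a :: l) = a :: (FSl l ++ (FSl l).map (fun x => a + x)) := rfl

theorem mem_FSl {l : List ℕ} {x : ℕ} :
    x ∈ FSl l ↔ ∃ s : List ℕ, s.Sublist l ∧ s ≠ [] ∧ s.sum = x := by
  induction l generalizing x with
  | nil =>
    simp only [FSl_nil, List.not_mem_nil, List.sublist_nil, false_iff, not_exists, not_and]
    intro s hs h
    exact absurd hs h
  | cons a l ih =>
    rw [FSl_cons, List.mem_cons, List.mem_append, List.mem_map]
    constructor
    · rintro (rfl | h | ⟨y, hy, rfl⟩)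
      · exact ⟨[x], by simp, by simp, by simp⟩
      · obtain ⟨s, hs, h0, h1⟩ := ih.1 h
        exact ⟨s, hs.trans (List.sublist_cons_self a l), h0, h1⟩
      · obtain ⟨s, hs, h0, h1⟩ := ih.1 hy
        exact ⟨a :: s, hs.cons_cons a, by simp, by simp [h1]⟩
    · rintro ⟨s, hs, h0, rfl⟩
      cases hs with
      | cons _ h => exact Or.inr (Or.inl (ih.2 ⟨s, h, h0, rfl⟩))
      | @cons_cons s' _ _ h =>
        by_cases h1 : s' = []
        · subst h1
          exact Or.inl (by simp)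
        · exact Or.inr (Or.inr ⟨s'.sum, ih.2 ⟨s', h, h1, rfl⟩, by simp⟩)

theorem mem_FS0 {l : List ℕ} {x : ℕ} :
    x ∈ FS0 l ↔ ∃ s : List ℕ, s.Sublist l ∧ s.sum = x := by
  unfold FS0
  rw [List.mem_cons, mem_FSl]
  constructor
  · rintro (rfl | ⟨s, h, -, h1⟩)
    · exact ⟨[], List.nil_sublist l, rfl⟩
    · exact ⟨s, h, h1⟩
  · rintro ⟨s, h, rfl⟩
    by_cases h0 : s = []
    · subst h0
      exact Or.inl rfl
    · exact Or.inr ⟨s, h, h0, rfl⟩

theorem mem_FS0_iff {l : List ℕ} {x : ℕ} : x ∈ FS0 l ↔ x = 0 ∨ x ∈ FSl l := List.mem_cons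

theorem zero_mem_FS0 (l : List ℕ) : 0 ∈ FS0 l := List.mem_cons_self

theorem FS0_of_FSl {l : List ℕ} {x : ℕ} (h : x ∈ FSl l) : x ∈ FS0 l := List.mem_cons_of_mem _ h

theorem FSl_sub {l m : List ℕ} (h : l.Sublist m) {x : ℕ} (hx : x ∈ FSl l) : x ∈ FSl m := by
  obtain ⟨s, hs, h0, h1⟩ := mem_FSl.1 hx
  exact mem_FSl.2 ⟨s, hs.trans h, h0, h1⟩

theorem FS0_sub {l m : List ℕ} (h : l.Sublist m) {x : ℕ} (hx : x ∈ FS0 l) : x ∈ FS0 m := by
  obtain ⟨s, hs, h1⟩ := mem_FS0.1 hx
  exact mem_FS0.2 ⟨s, hs.trans h, h1⟩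

theorem mem_FS0_append {l m : List ℕ} {x : ℕ} :
    x ∈ FS0 (l ++ m) ↔ ∃ a ∈ FS0 l, ∃ b ∈ FS0 m, a + b = x := by
  constructor
  · intro h
    obtain ⟨s, hs, rfl⟩ := mem_FS0.1 h
    obtain ⟨s₁, s₂, rfl, h1, h2⟩ := List.sublist_append_iff.1 hs
    exact ⟨s₁.sum, mem_FS0.2 ⟨s₁, h1, rfl⟩, s₂.sum, mem_FS0.2 ⟨s₂, h2, rfl⟩, by simp⟩
  · rintro ⟨a, ha, b, hb, rfl⟩
    obtain ⟨s₁, h1, rfl⟩ := mem_FS0.1 ha
    obtain ⟨s₂, h2, rfl⟩ := mem_FS0.1 hb
    exact mem_FS0.2 ⟨s₁ ++ s₂, h1.append h2, by simp⟩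

theorem mem_FSl_append {l m : List ℕ} {x : ℕ} :
    x ∈ FSl (l ++ m) ↔ x ∈ FSl l ∨ ∃ a ∈ FS0 l, ∃ b ∈ FSl m, a + b = x := by
  constructor
  · intro h
    obtain ⟨s, hs, h0, rfl⟩ := mem_FSl.1 h
    obtain ⟨s₁, s₂, rfl, h1, h2⟩ := List.sublist_append_iff.1 hs
    by_cases h3 : s₂ = []
    · subst h3
      simp only [List.append_nil] at h0 ⊢
      exact Or.inl (mem_FSl.2 ⟨s₁, h1, h0, rfl⟩)
    · exact Or.inr ⟨s₁.sum, mem_FS0.2 ⟨s₁, h1, rfl⟩, s₂.sum, mem_FSl.2 ⟨s₂, h2, h3, rfl⟩,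
        by simp⟩
  · rintro (h | ⟨a, ha, b, hb, rfl⟩)
    · exact FSl_sub (List.sublist_append_left l m) h
    · obtain ⟨s₁, h1, rfl⟩ := mem_FS0.1 ha
      obtain ⟨s₂, h2, h3, rfl⟩ := mem_FSl.1 hb
      exact mem_FSl.2 ⟨s₁ ++ s₂, h1.append h2, by simp [h3], by simp⟩

theorem mem_FSl_singleton {a x : ℕ} : x ∈ FSl [a] ↔ x = a := by
  simp [FSl]

theorem FSl_pos {l : List ℕ} (h : ∀ a ∈ l, 0 < a) {x : ℕ} (hx : x ∈ FSl l) : 0 < x := by
  obtain ⟨s, hs, h0, rfl⟩ := mem_FSl.1 hx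
  obtain ⟨a, ha⟩ := List.exists_mem_of_ne_nil s h0
  have h1 : a ≤ s.sum := List.le_sum_of_mem ha
  exact lt_of_lt_of_le (h a (hs.subset ha)) h1

/-- all sums of nonempty sublists of `D` lie in `A` -/
def In (A : ℕ → Prop) (D : List ℕ) : Prop := ∀ r ∈ FSl D, A r

/-- the `x` all of whose shifts by sums of `B` (including `0`) lie in `A` -/
def Up (A : ℕ → Prop) (B : List ℕ) (x : ℕ) : Prop := ∀ b ∈ FS0 B, A (b + x)

/-- reservoirs: every finite list whose sums lie in `A` can be extended inside `A` by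
arbitrarily large elements -/
def V (A : ℕ → Prop) : Prop := ∀ D : List ℕ, In A D → ∀ N : ℕ, ∃ x, N < x ∧ In A (D ++ [x])

theorem In_nil (A : ℕ → Prop) : In A [] := by
  intro r hr
  simp [FSl] at hr

theorem In_mono {A A' : ℕ → Prop} (h : ∀ x, A x → A' x) {D : List ℕ} (hD : In A D) : In A' D :=
  fun r hr => h r (hD r hr)

theorem In_append {A : ℕ → Prop} {B D : List ℕ} :
    In A (B ++ D) ↔ In A B ∧ In (Up A B) D := by
  constructor
  · intro h
    refine ⟨fun r hr => h r (FSl_sub (List.sublist_append_left B D) hr), fun r hr b hb => ?_⟩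
    exact h _ (mem_FSl_append.2 (Or.inr ⟨b, hb, r, hr, rfl⟩))
  · rintro ⟨h1, h2⟩ r hr
    rcases mem_FSl_append.1 hr with h | ⟨a, ha, b, hb, rfl⟩
    · exact h1 r h
    · exact h2 b hb a ha

theorem In_concat {A : ℕ → Prop} {B : List ℕ} {x : ℕ} :
    In A (B ++ [x]) ↔ In A B ∧ Up A B x := by
  rw [In_append]
  refine and_congr_right fun _ => ?_
  constructor
  · intro h
    exact h x (mem_FSl_singleton.2 rfl)
  · intro h r hr
    rw [mem_FSl_singleton.1 hr]
    exact h

theorem Up_Up {A : ℕ → Prop} {B D : List ℕ} {x : ℕ} :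
    Up (Up A B) D x ↔ Up A (B ++ D) x := by
  constructor
  · intro h r hr
    obtain ⟨b, hb, d, hd, rfl⟩ := mem_FS0_append.1 hr
    have := h d hd b hb
    rwa [← add_assoc] at this
  · intro h d hd b hb
    have := h (b + d) (mem_FS0_append.2 ⟨b, hb, d, hd, rfl⟩)
    rwa [add_assoc] at this

theorem Up_self {A : ℕ → Prop} {B : List ℕ} {x : ℕ} (h : Up A B x) : A x := by
  have := h 0 (zero_mem_FS0 B)
  rwa [zero_add] at this

theorem V_Up {A : ℕ → Prop} (hV : V A) {B : List ℕ} (hB : In A B) : V (Up A B) := by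
  intro D hD N
  obtain ⟨x, hx, h⟩ := hV (B ++ D) (In_append.2 ⟨hB, hD⟩) N
  refine ⟨x, hx, ?_⟩
  rw [List.append_assoc] at h
  exact (In_append.1 h).2

theorem V_gt {A : ℕ → Prop} (hV : V A) (N : ℕ) : V fun x => A x ∧ N < x := by
  intro D hD M
  obtain ⟨x, hx, h⟩ := hV D (In_mono (fun x hx => hx.1) hD) (max M N)
  refine ⟨x, lt_of_le_of_lt (le_max_left _ _) hx, fun r hr => ⟨h r hr, ?_⟩⟩
  rcases mem_FSl_append.1 hr with h1 | ⟨a, ha, b, hb, rfl⟩
  · exact (hD r h1).2
  · rw [mem_FSl_singleton.1 hb]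
    have := le_max_right M N
    omega

/-- **Half match lemma.** -/
theorem halfMatch {κ : Type*} [Finite κ] {A : ℕ → Prop} (hV : V A) (f : ℕ → κ) :
    ∃ B : List ℕ, B ≠ [] ∧ In A B ∧
      V fun x => Up A B x ∧ ∃ y ∈ FSl B, f (y + x) = f x := by
  by_contra hcon
  push Not at hcon
  have key : ∀ j : ℕ, ∃ B : List ℕ, B ≠ [] ∧ In A B ∧ ∀ x, Up A B x →
      ∃ e : Fin (j + 1) → ℕ, (∀ i, e i ∈ FSl B) ∧
        Function.Injective fun i => f (e i + x) := by
    intro j
    induction j with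
    | zero =>
      obtain ⟨b, -, hb⟩ := hV [] (In_nil A) 0
      refine ⟨[b], by simp, hb, fun x _ => ⟨fun _ => b, fun _ => mem_FSl_singleton.2 rfl, ?_⟩⟩
      intro i i' _
      exact Fin.ext (by omega)
    | succ j ih =>
      obtain ⟨B, hB0, hB, hB2⟩ := ih
      have hnV := hcon B hB0 hB
      unfold V at hnV
      push Not at hnV
      obtain ⟨D, hD, M, hM⟩ := hnV
      have hBD : In A (B ++ D) := In_append.2 ⟨hB, In_mono (fun x hx => hx.1) hD⟩
      obtain ⟨w, hw, hBDw⟩ := hV (B ++ D) hBD M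
      refine ⟨B ++ D ++ [w], by simp [hB0], hBDw, fun x hx => ?_⟩
      have hx' : Up A (B ++ D) (w + x) := by
        intro b hb
        have := hx (b + w) (mem_FS0_append.2 ⟨b, hb, w, FS0_of_FSl (mem_FSl_singleton.2 rfl), rfl⟩)
        rwa [add_assoc] at this
      have hnot := hM (w + x) (by omega)
      unfold In at hnot
      push Not at hnot
      obtain ⟨r, hr, hr2⟩ := hnot
      have hrd : ∃ d ∈ FS0 D, r = d + (w + x) := by
        rcases mem_FSl_append.1 hr with h | ⟨a, ha, b, hb, rfl⟩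
        · exact absurd (hD r h) (by
            rintro ⟨h1, y, hy, h2⟩
            exact hr2 h1 y hy h2)
        · exact ⟨a, ha, by rw [mem_FSl_singleton.1 hb]⟩
      obtain ⟨d, hd, rfl⟩ := hrd
      have hUr : Up A B (d + (w + x)) := by
        intro b hb
        have := hx' (b + d) (mem_FS0_append.2 ⟨b, hb, d, hd, rfl⟩)
        rwa [add_assoc] at this
      have hne := hr2 hUr
      obtain ⟨e, he, hinj⟩ := hB2 _ hUr
      refine ⟨Fin.cons (d + w) (fun i => e i + (d + w)), ?_, ?_⟩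
      · intro i
        refine Fin.cases ?_ (fun i => ?_) i
        · rw [Fin.cons_zero]
          refine mem_FSl_append.2 (Or.inr ⟨d, ?_, w, mem_FSl_singleton.2 rfl, rfl⟩)
          exact FS0_sub (List.sublist_append_right B D) hd
        · rw [Fin.cons_succ]
          refine mem_FSl_append.2 (Or.inr ⟨e i + d, ?_, w, mem_FSl_singleton.2 rfl, by ring⟩)
          exact mem_FS0_append.2 ⟨e i, FS0_of_FSl (he i), d, hd, rfl⟩
      · have h0 : ∀ i, f (e i + (d + w) + x) = f (e i + (d + (w + x))) := fun i => by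
          congr 1
          ring
        have h1 : f (d + w + x) = f (d + (w + x)) := by
          congr 1
          ring
        intro i i'
        refine Fin.cases ?_ (fun i => ?_) i
        · refine Fin.cases ?_ (fun i' => ?_) i'
          · intro _
            rfl
          · intro h
            simp only [Fin.cons_zero, Fin.cons_succ] at h
            rw [h1, h0] at h
            exact absurd h.symm (hne _ (he i'))
        · refine Fin.cases ?_ (fun i' => ?_) i'
          · intro h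
            simp only [Fin.cons_zero, Fin.cons_succ] at h
            rw [h1, h0] at h
            exact absurd h (hne _ (he i))
          · intro h
            simp only [Fin.cons_succ] at h
            rw [h0, h0] at h
            exact congrArg Fin.succ (hinj h)
  obtain ⟨B, -, hB, hB2⟩ := key (Nat.card κ)
  obtain ⟨x, -, hx⟩ := hV B hB 0
  obtain ⟨e, -, hinj⟩ := hB2 x (In_concat.1 hx).2
  have := Nat.card_le_card_of_injective _ hinj
  simp at this

end Pool.Agent.Work.MP_69fea5_lc.AC
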