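import Pool.Agent.Work.MP_69fea5_lc.AC.Comb
import Pool.Agent.Work.MP_69fea5_lc.AC.Path

/-!
The dichotomy: cover or avoid.
-/

set_option autoImplicit false

namespace Pool.Agent.Work.MP_69fea5_lc.AC

open Encodable

section prim

variable {π : Type*} [Primcodable π]

theorem FSl_prim : Primrec FSl := by
  refine (Primrec.list_foldr (f := fun l : List ℕ => l) (g := fun _ => ([] : List ℕ))
    (h := fun _ (p : ℕ × List ℕ) => p.1 :: (p.2 ++ p.2.map (fun x => p.1 + x)))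
    Primrec.id (Primrec.const []) ?_)
  have h1 : Primrec fun q : List ℕ × ℕ × List ℕ => q.2.1 := Primrec.fst.comp .snd
  have h2 : Primrec fun q : List ℕ × ℕ × List ℕ => q.2.2 := Primrec.snd.comp .snd
  refine Primrec.list_cons.comp h1 (Primrec.list_append.comp h2 (Primrec.list_map h2 ?_))
  exact Primrec.nat_add.comp (h1.comp .fst) .snd

theorem FS0_prim : Primrec FS0 := Primrec.list_cons.comp (Primrec.const 0) FSl_prim

theorem AR_In {A : π → ℕ → Prop} (hA : AR fun x : π × ℕ => A x.1 x.2) {f : π → List ℕ}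
    (hf : Primrec f) : AR fun p => In (A p) (f p) :=
  AR.allIn (g := fun p => FSl (f p)) (p := fun p r => A p r) (FSl_prim.comp hf) hA

theorem AR_V {A : π → ℕ → Prop} (hA : AR fun x : π × ℕ => A x.1 x.2) :
    AR fun p => V (A p) := by
  refine AR.all (p := fun p (D : List ℕ) => In (A p) D → ∀ N : ℕ, ∃ x, N < x ∧
    In (A p) (D ++ [x])) (AR.imp ?_ (AR.all (p := fun (q : π × List ℕ) (N : ℕ) =>
      ∃ x, N < x ∧ In (A q.1) (q.2 ++ [x])) (AR.ex (p := fun (q : (π × List ℕ) × ℕ) x =>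
      q.2 < x ∧ In (A q.1.1) (q.1.2 ++ [x])) (AR.and ?_ ?_))))
  · exact AR_In (A := fun (x : π × List ℕ) r => A x.1 r)
      (hA.sub (f := fun x : (π × List ℕ) × ℕ => (x.1.1, x.2))
        (Primrec.pair (Primrec.fst.comp .fst) .snd)) .snd
  · exact AR.lt (Primrec.snd.comp .fst) .snd
  · exact AR_In (A := fun (x : ((π × List ℕ) × ℕ) × ℕ) r => A x.1.1.1 r)
      (hA.sub (f := fun x : (((π × List ℕ) × ℕ) × ℕ) × ℕ => (x.1.1.1.1, x.2))
        (Primrec.pair (Primrec.fst.comp (Primrec.fst.comp (Primrec.fst.comp .fst))) .snd))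
      (f := fun x : ((π × List ℕ) × ℕ) × ℕ => x.1.1.2 ++ [x.2])
      (Primrec.list_append.comp (Primrec.snd.comp (Primrec.fst.comp .fst))
        (Primrec.list_cons.comp .snd (Primrec.const [])))

end prim

section

variable {κ : Type*} (c : ℕ → κ) (S : List ℕ) (δ : ℕ → κ)

/-- the type of `x` over `S` is `δ` -/
def G (x : ℕ) : Prop := ∀ u ∈ S, c (u + x) = δ u

/-- each block of `𝓑` contains a half match for the sums of later blocks plus `x` -/
def Match (𝓑 : List (List ℕ)) (x : ℕ) : Prop :=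
  ∀ (𝓑₁ : List (List ℕ)) (B : List ℕ) (𝓑₂ : List (List ℕ)), 𝓑₁ ++ B :: 𝓑₂ = 𝓑 →
    ∀ t ∈ FS0 𝓑₂.flatten, ∃ y ∈ FSl B, ∀ s ∈ FS0 𝓑₁.flatten, ∀ u ∈ S,
      c (u + (s + (y + (t + x)))) = c (u + (s + (t + x)))

/-- the reservoir after the blocks `𝓑` -/
def VS (A : ℕ → Prop) (𝓑 : List (List ℕ)) (x : ℕ) : Prop :=
  (∀ s ∈ FS0 𝓑.flatten, A (s + x)) ∧ 𝓑.length ≤ x ∧ Match c S 𝓑 x

variable {c S δ}

theorem match_nil (x : ℕ) : Match c S [] x := by
  intro 𝓑₁ B 𝓑₂ h
  simp at h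

theorem VS_nil {A : ℕ → Prop} {x : ℕ} : VS c S A [] x ↔ A x := by
  constructor
  · rintro ⟨h, -, -⟩
    simpa using h 0 (zero_mem_FS0 _)
  · intro h
    refine ⟨fun s hs => ?_, Nat.zero_le _, match_nil x⟩
    have : s = 0 := by simpa [FS0, FSl] using hs
    rw [this, zero_add]
    exact h

theorem flatten_concat (𝓑 : List (List ℕ)) (B : List ℕ) :
    (𝓑 ++ [B]).flatten = 𝓑.flatten ++ B := by simp

theorem VS_concat {A : ℕ → Prop} {𝓑 : List (List ℕ)} {B : List ℕ} {x : ℕ} :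
    VS c S A (𝓑 ++ [B]) x ↔ Up (fun x => VS c S A 𝓑 x ∧ 𝓑.length < x) B x ∧
      ∃ y ∈ FSl B, ∀ s ∈ FS0 𝓑.flatten, ∀ u ∈ S, c (u + (s + (y + x))) = c (u + (s + x)) := by
  constructor
  · rintro ⟨h1, h2, h3⟩
    rw [List.length_append, List.length_singleton] at h2
    refine ⟨fun b hb => ⟨⟨fun s hs => ?_, by omega, ?_⟩, by omega⟩, ?_⟩
    · have := h1 (s + b) (by
        rw [flatten_concat]
        exact mem_FS0_append.2 ⟨s, hs, b, hb, rfl⟩)
      rwa [add_assoc] at this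
    · intro 𝓑₁ B' 𝓑₂ h t ht
      obtain ⟨y, hy, h4⟩ := h3 𝓑₁ B' (𝓑₂ ++ [B]) (by rw [← h]; simp) (t + b) (by
        rw [flatten_concat]
        exact mem_FS0_append.2 ⟨t, ht, b, hb, rfl⟩)
      refine ⟨y, hy, fun s hs u hu => ?_⟩
      have := h4 s hs u hu
      rwa [add_assoc] at this
    · obtain ⟨y, hy, h4⟩ := h3 𝓑 B [] rfl 0 (zero_mem_FS0 _)
      refine ⟨y, hy, fun s hs u hu => ?_⟩
      have := h4 s hs u hu
      rwa [zero_add] at this
  · rintro ⟨h1, y, hy, h2⟩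
    refine ⟨fun s hs => ?_, ?_, ?_⟩
    · rw [flatten_concat] at hs
      obtain ⟨a, ha, b, hb, rfl⟩ := mem_FS0_append.1 hs
      have := (h1 b hb).1.1 a ha
      rwa [← add_assoc] at this
    · rw [List.length_append, List.length_singleton]
      have := (h1 0 (zero_mem_FS0 _)).2
      omega
    · intro 𝓑₁ B' 𝓑₂ h t ht
      rcases List.eq_nil_or_concat 𝓑₂ with rfl | ⟨𝓑₃, B₃, rfl⟩
      · have h5 := List.append_inj' h (by simp)
        obtain ⟨rfl, h6⟩ := h5
        have h7 : B' = B := by simpa using h6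
        subst h7
        have ht0 : t = 0 := by simpa [FS0, FSl] using ht
        subst ht0
        refine ⟨y, hy, fun s hs u hu => ?_⟩
        rw [zero_add]
        exact h2 s hs u hu
      · have h5 : (𝓑₁ ++ B' :: 𝓑₃) ++ [B₃] = 𝓑 ++ [B] := by rw [← h]; simp
        have h6 := List.append_inj' h5 (by simp)
        obtain ⟨h7, h8⟩ := h6
        have h8 : B₃ = B := by simpa using h8
        subst h8
        rw [List.concat_eq_append, flatten_concat] at ht
        obtain ⟨a, ha, b, hb, rfl⟩ := mem_FS0_append.1 ht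
        obtain ⟨y', hy', h9⟩ := (h1 b hb).1.2.2 𝓑₁ B' 𝓑₃ h7 a ha
        refine ⟨y', hy', fun s hs u hu => ?_⟩
        rw [add_assoc a b x]
        exact h9 s hs u hu

/-- the tuple lemma -/
theorem tuple_aux (x : ℕ) (𝓑₂ : List (List ℕ)) : ∀ 𝓑₁ : List (List ℕ),
    (∀ (𝓑₃ : List (List ℕ)) (B : List ℕ) (𝓑₄ : List (List ℕ)), 𝓑₃ ++ B :: 𝓑₄ = 𝓑₂ →
      ∀ t ∈ FS0 𝓑₄.flatten, ∃ y ∈ FSl B, ∀ s ∈ FS0 (𝓑₁ ++ 𝓑₃).flatten, ∀ u ∈ S,
        c (u + (s + (y + (t + x)))) = c (u + (s + (t + x)))) →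
    ∃ ζ : List ℕ, List.Forall₂ (fun y B => y ∈ FSl B) ζ 𝓑₂ ∧
      ∀ s ∈ FS0 𝓑₁.flatten, ∀ r ∈ FS0 ζ, ∀ u ∈ S,
        c (u + (s + (r + x))) = c (u + (s + (ζ.sum + x))) := by
  induction 𝓑₂ with
  | nil =>
    intro 𝓑₁ _
    refine ⟨[], .nil, fun s _ r hr u _ => ?_⟩
    have : r = 0 := by simpa [FS0, FSl] using hr
    subst this
    rfl
  | cons B 𝓑₃ ih =>
    intro 𝓑₁ h
    obtain ⟨ζ, hζ, h1⟩ := ih (𝓑₁ ++ [B]) (by
      intro 𝓑₄ B' 𝓑₅ h2 t ht
      obtain ⟨y, hy, h3⟩ := h (B :: 𝓑₄) B' 𝓑₅ (by rw [← h2]; rfl) t ht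
      refine ⟨y, hy, fun s hs u hu => h3 s (by simpa using hs) u hu⟩)
    have hsum : ζ.sum ∈ FS0 𝓑₃.flatten := by
      clear ih h h1
      induction hζ with
      | nil => exact zero_mem_FS0 _
      | @cons y B' ζ 𝓑₄ hy _ ih =>
        rw [List.sum_cons, List.flatten_cons]
        exact mem_FS0_append.2 ⟨y, FS0_of_FSl hy, _, ih, rfl⟩
    obtain ⟨y, hy, h2⟩ := h [] B 𝓑₃ rfl ζ.sum hsum
    refine ⟨y :: ζ, .cons hy hζ, fun s hs r hr u hu => ?_⟩
    have h3 : c (u + (s + (y + (ζ.sum + x)))) = c (u + (s + (ζ.sum + x))) :=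
      h2 s (by simpa using hs) u hu
    have h4 : r ∈ FS0 ([y] ++ ζ) := hr
    obtain ⟨a, ha, b, hb, rfl⟩ := mem_FS0_append.1 h4
    rw [List.sum_cons]
    rcases mem_FS0_iff.1 ha with rfl | h5
    · have h6 := h1 s (by
        rw [flatten_concat]
        exact mem_FS0_append.2 ⟨s, hs, 0, zero_mem_FS0 _, by simp⟩) b hb u hu
      rw [zero_add, h6, add_assoc y, h3]
    · rw [mem_FSl_singleton] at h5
      subst h5
      have h6 := h1 (s + a) (by
        rw [flatten_concat]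
        exact mem_FS0_append.2 ⟨s, hs, a, FS0_of_FSl hy, rfl⟩) b hb u hu
      simp only [add_assoc] at h6 ⊢
      exact h6

theorem tuple {𝓑 : List (List ℕ)} {x : ℕ} (h : Match c S 𝓑 x) :
    ∃ ζ : List ℕ, List.Forall₂ (fun y B => y ∈ FSl B) ζ 𝓑 ∧
      ∀ r ∈ FS0 ζ, ∀ u ∈ S, c (u + (r + x)) = c (u + x) := by
  obtain ⟨ζ, h1, h2⟩ := tuple_aux (c := c) (S := S) x 𝓑 [] (by simpa [Match] using h)
  refine ⟨ζ, h1, fun r hr u hu => ?_⟩
  have h3 := h2 0 (zero_mem_FS0 _) r hr u hu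
  have h4 := h2 0 (zero_mem_FS0 _) 0 (zero_mem_FS0 _) u hu
  simp only [zero_add] at h3 h4
  rw [h3, h4]

theorem tuple_FS {ζ : List ℕ} {𝓑 : List (List ℕ)} (h : List.Forall₂ (fun y B => y ∈ FSl B) ζ 𝓑)
    {r : ℕ} (hr : r ∈ FS0 ζ) : r ∈ FS0 𝓑.flatten := by
  induction h generalizing r with
  | nil => exact hr
  | @cons y B ζ 𝓑 hy _ ih =>
    have h4 : r ∈ FS0 ([y] ++ ζ) := hr
    obtain ⟨a, ha, b, hb, rfl⟩ := mem_FS0_append.1 h4
    rw [List.flatten_cons]
    refine mem_FS0_append.2 ⟨a, ?_, b, ih hb, rfl⟩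
    rcases mem_FS0_iff.1 ha with rfl | h5
    · exact zero_mem_FS0 _
    · rw [mem_FSl_singleton] at h5
      subst h5
      exact FS0_of_FSl hy

theorem tuple_FSl {ζ : List ℕ} {𝓑 : List (List ℕ)}
    (h : List.Forall₂ (fun y B => y ∈ FSl B) ζ 𝓑)
    {r : ℕ} (hr : r ∈ FSl ζ) : r ∈ FSl 𝓑.flatten := by
  induction h generalizing r with
  | nil => exact hr
  | @cons y B ζ 𝓑 hy h' ih =>
    have h4 : r ∈ FSl ([y] ++ ζ) := hr
    rw [List.flatten_cons]
    rcases mem_FSl_append.1 h4 with h5 | ⟨a, ha, b, hb, rfl⟩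
    · rw [mem_FSl_singleton] at h5
      subst h5
      exact mem_FSl_append.2 (Or.inl (FSl_sub (List.Sublist.refl _) hy))
    · refine mem_FSl_append.2 (Or.inr ⟨a, ?_, b, ih hb, rfl⟩)
      rcases mem_FS0_iff.1 ha with rfl | h5
      · exact zero_mem_FS0 _
      · rw [mem_FSl_singleton] at h5
        subst h5
        exact FS0_of_FSl hy

/-- extend a block sequence -/
theorem VS_extend [Finite κ] {A : ℕ → Prop} {𝓑 : List (List ℕ)} (hV : V (VS c S A 𝓑)) :
    ∃ B : List ℕ, B ≠ [] ∧ In (fun x => VS c S A 𝓑 x ∧ 𝓑.length < x) B ∧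
      V (VS c S A (𝓑 ++ [B])) := by
  obtain ⟨B, h1, h2, h3⟩ := halfMatch (V_gt hV 𝓑.length)
    (fun x => fun (p : {s // s ∈ FS0 𝓑.flatten} × {u // u ∈ S}) => c (p.2.1 + (p.1.1 + x)))
  refine ⟨B, h1, h2, ?_⟩
  have : VS c S A (𝓑 ++ [B]) = fun x => Up (fun x => VS c S A 𝓑 x ∧ 𝓑.length < x) B x ∧
      ∃ y ∈ FSl B, (fun (p : {s // s ∈ FS0 𝓑.flatten} × {u // u ∈ S}) =>
        c (p.2.1 + (p.1.1 + (y + x)))) = fun (p : {s // s ∈ FS0 𝓑.flatten} × {u // u ∈ S}) =>
        c (p.2.1 + (p.1.1 + x)) := by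
    funext x
    rw [VS_concat]
    refine propext (and_congr_right fun _ => exists_congr fun y => and_congr_right fun _ => ?_)
    constructor
    · intro h
      funext p
      exact h _ p.1.2 _ p.2.2
    · intro h s hs u hu
      exact congrFun h (⟨s, hs⟩, ⟨u, hu⟩)
  rw [this]
  exact h3

end

section ar

variable {κ : Type*} [Finite κ] {c : ℕ → κ} {S : List ℕ} {δ : ℕ → κ}

theorem AR_c (hc : ∀ i, AR fun x => c x = i) {π : Type*} [Primcodable π] {f g : π → ℕ}
    (hf : Primrec f) (hg : Primrec g) : AR fun p => c (f p) = c (g p) := by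
  refine (AR.exFin (p := fun i (p : π) => c (f p) = i ∧ c (g p) = i) fun i =>
    ((hc i).sub hf).and ((hc i).sub hg)).congr fun p => ?_
  constructor
  · rintro ⟨i, h1, h2⟩
    rw [h1, h2]
  · intro h
    exact ⟨_, rfl, h.symm⟩

omit [Finite κ] in
theorem AR_G (hc : ∀ i, AR fun x => c x = i) : AR (G c S δ) :=
  AR.allMem (p := fun u x => c (u + x) = δ u) (fun u => (hc (δ u)).sub
    (Primrec.nat_add.comp (Primrec.const u) Primrec.id)) S

theorem AR_VS (hc : ∀ i, AR fun x => c x = i) {A : ℕ → Prop} (hA : AR A) :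
    AR fun p : List (List ℕ) × ℕ => VS c S A p.1 p.2 := by
  refine AR.and ?_ (AR.and ?_ ?_)
  · exact AR.allIn (g := fun p : List (List ℕ) × ℕ => FS0 p.1.flatten)
      (p := fun p s => A (s + p.2)) (FS0_prim.comp (Primrec.list_flatten.comp .fst))
      (hA.sub (Primrec.nat_add.comp .snd (Primrec.snd.comp .fst)))
  · exact AR.le (Primrec.list_length.comp .fst) .snd
  · refine AR.all (AR.all (AR.all (AR.imp ?_ ?_)))
    · refine AR.eq (f := fun q : (((List (List ℕ) × ℕ) × List (List ℕ)) × List ℕ) ×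
        List (List ℕ) => q.1.1.2 ++ q.1.2 :: q.2) (g := fun q => q.1.1.1.1) ?_ ?_
      · exact Primrec.list_append.comp (Primrec.snd.comp (Primrec.fst.comp .fst))
          (Primrec.list_cons.comp (Primrec.snd.comp .fst) .snd)
      · exact Primrec.fst.comp (Primrec.fst.comp (Primrec.fst.comp .fst))
    · refine AR.allIn (g := fun q : (((List (List ℕ) × ℕ) × List (List ℕ)) × List ℕ) ×
        List (List ℕ) => FS0 q.2.flatten) (FS0_prim.comp (Primrec.list_flatten.comp .snd)) ?_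
      refine AR.exIn (g := fun q : ((((List (List ℕ) × ℕ) × List (List ℕ)) × List ℕ) ×
        List (List ℕ)) × ℕ => FSl q.1.1.2)
        (FSl_prim.comp (Primrec.snd.comp (Primrec.fst.comp .fst))) ?_
      refine AR.allIn (g := fun q : (((((List (List ℕ) × ℕ) × List (List ℕ)) × List ℕ) ×
        List (List ℕ)) × ℕ) × ℕ => FS0 q.1.1.1.1.2.flatten)
        (FS0_prim.comp (Primrec.list_flatten.comp (Primrec.snd.comp (Primrec.fst.comp
          (Primrec.fst.comp (Primrec.fst.comp .fst)))))) ?_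
      refine AR.allMem (fun u => ?_) S
      have hx : Primrec fun q : ((((((List (List ℕ) × ℕ) × List (List ℕ)) × List ℕ) ×
        List (List ℕ)) × ℕ) × ℕ) × ℕ => q.1.1.1.1.1.1.2 :=
        Primrec.snd.comp (Primrec.fst.comp (Primrec.fst.comp (Primrec.fst.comp
          (Primrec.fst.comp (Primrec.fst.comp .fst)))))
      have ht : Primrec fun q : ((((((List (List ℕ) × ℕ) × List (List ℕ)) × List ℕ) ×
        List (List ℕ)) × ℕ) × ℕ) × ℕ => q.1.1.2 := Primrec.snd.comp (Primrec.fst.comp .fst)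
      have hy : Primrec fun q : ((((((List (List ℕ) × ℕ) × List (List ℕ)) × List ℕ) ×
        List (List ℕ)) × ℕ) × ℕ) × ℕ => q.1.2 := Primrec.snd.comp .fst
      have hs : Primrec fun q : ((((((List (List ℕ) × ℕ) × List (List ℕ)) × List ℕ) ×
        List (List ℕ)) × ℕ) × ℕ) × ℕ => q.2 := Primrec.snd
      exact AR_c hc (Primrec.nat_add.comp (.const u) (Primrec.nat_add.comp hs
        (Primrec.nat_add.comp hy (Primrec.nat_add.comp ht hx))))
        (Primrec.nat_add.comp (.const u) (Primrec.nat_add.comp hs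
          (Primrec.nat_add.comp ht hx)))

theorem AR_VS1 (hc : ∀ i, AR fun x => c x = i) {A : ℕ → Prop} (hA : AR A) (𝓑 : List (List ℕ)) :
    AR (VS c S A 𝓑) :=
  (AR_VS hc hA).sub (f := fun x => (𝓑, x)) (Primrec.pair (.const 𝓑) .id)

end ar

/-- `𝓑` covers: every `x` of type `δ` in the reservoir of `𝓑` has a good `E` inside `𝓑` -/
def Cov {κ : Type*} (c : ℕ → κ) (S : List ℕ) (δ : ℕ → κ) (A : ℕ → Prop) (Φ : List ℕ → Prop)
    (𝓑 : List (List ℕ)) : Prop :=
  ∀ x, VS c S A 𝓑 x → G c S δ x → ∃ E, Φ E ∧ ∀ r ∈ FSl E, r ∈ FSl 𝓑.flatten ∧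
    G c S δ r ∧ G c S δ (r + x)

/-- the covering alternative -/
def Covers {κ : Type*} (c : ℕ → κ) (S : List ℕ) (δ : ℕ → κ) (A : ℕ → Prop)
    (Φ : List ℕ → Prop) : Prop :=
  ∃ 𝓑 : List (List ℕ), In A 𝓑.flatten ∧ V (VS c S A 𝓑) ∧ Cov c S δ A Φ 𝓑

section ar2

variable {κ : Type*} [Finite κ] {c : ℕ → κ} {S : List ℕ} {δ : ℕ → κ}

theorem AR_Covers (hc : ∀ i, AR fun x => c x = i) {A : ℕ → Prop} (hA : AR A)
    {Φ : ℕ → List ℕ → Prop} (hΦ : AR fun p : ℕ × List ℕ => Φ p.1 p.2) :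
    AR fun m => Covers c S δ A (Φ m) := by
  have hG : AR (G c S δ) := AR_G hc
  refine AR.ex (AR.and ?_ (AR.and ?_ ?_))
  · exact AR_In (A := fun _ : ℕ × List (List ℕ) => A) (hA.sub .snd)
      (Primrec.list_flatten.comp .snd)
  · exact AR_V (A := fun (p : ℕ × List (List ℕ)) x => VS c S A p.2 x)
      ((AR_VS hc hA).sub (f := fun q : (ℕ × List (List ℕ)) × ℕ => (q.1.2, q.2))
        (Primrec.pair (Primrec.snd.comp .fst) .snd))
  · refine AR.all (AR.imp ?_ (AR.imp ?_ (AR.ex (AR.and ?_ ?_))))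
    · exact (AR_VS hc hA).sub (f := fun q : (ℕ × List (List ℕ)) × ℕ => (q.1.2, q.2))
        (Primrec.pair (Primrec.snd.comp .fst) .snd)
    · exact hG.sub .snd
    · exact hΦ.sub (f := fun q : ((ℕ × List (List ℕ)) × ℕ) × List ℕ => (q.1.1.1, q.2))
        (Primrec.pair (Primrec.fst.comp (Primrec.fst.comp .fst)) .snd)
    · refine AR.allIn (g := fun q : ((ℕ × List (List ℕ)) × ℕ) × List ℕ => FSl q.2)
        (FSl_prim.comp .snd) (AR.and ?_ (AR.and ?_ ?_))
      · exact AR.mem .snd (FSl_prim.comp (Primrec.list_flatten.comp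
          (Primrec.snd.comp (Primrec.fst.comp (Primrec.fst.comp .fst)))))
      · exact hG.sub .snd
      · exact hG.sub (Primrec.nat_add.comp .snd (Primrec.snd.comp (Primrec.fst.comp .fst)))

/-- **Dichotomy**: either some block sequence covers, or the family can be avoided. -/
theorem dichotomy (hc : ∀ i, AR fun x => c x = i) {A : ℕ → Prop} (hA : AR A) (hV : V A)
    {Φ : List ℕ → Prop} (hΦ : AR Φ) (hcov : ¬ Covers c S δ A Φ) :
    ∃ Z : ℕ → Prop, AR Z ∧ V Z ∧ (∀ x, Z x → A x) ∧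
      ∀ E, Φ E → In Z E → ∃ r ∈ FSl E, ¬ G c S δ r := by
  have hG : AR (G c S δ) := AR_G hc
  have hVS := AR_VS (S := S) hc hA
  -- the canonical block sequence
  obtain ⟨β, hβ1, hβ2, hβ3⟩ := leastPath
    (R := fun (𝓑 : List (List ℕ)) B => B ≠ [] ∧
      In (fun x => VS c S A 𝓑 x ∧ 𝓑.length < x) B ∧ V (VS c S A (𝓑 ++ [B])))
    (Q := fun 𝓑 => In A 𝓑.flatten ∧ V (VS c S A 𝓑))
    (by
      refine AR.and ?_ (AR.and ?_ ?_)
      · exact (AR.eq .snd (.const [])).not
      · exact AR_In (A := fun (p : List (List ℕ) × List ℕ) x =>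
          VS c S A p.1 x ∧ p.1.length < x)
          (AR.and (hVS.sub (f := fun q : (List (List ℕ) × List ℕ) × ℕ => (q.1.1, q.2))
            (Primrec.pair (Primrec.fst.comp .fst) .snd))
            (AR.lt (Primrec.list_length.comp (Primrec.fst.comp .fst)) .snd)) .snd
      · exact AR_V (A := fun (p : List (List ℕ) × List ℕ) x => VS c S A (p.1 ++ [p.2]) x)
          (hVS.sub (f := fun q : (List (List ℕ) × List ℕ) × ℕ => (q.1.1 ++ [q.1.2], q.2))
            (Primrec.pair (Primrec.list_append.comp (Primrec.fst.comp .fst)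
              (Primrec.list_cons.comp (Primrec.snd.comp .fst) (.const []))) .snd)))
    (by
      refine ⟨In_nil A, ?_⟩
      have : VS c S A [] = A := funext fun x => propext VS_nil
      rw [this]
      exact hV)
    (fun 𝓑 h => VS_extend h.2)
    (by
      rintro 𝓑 B ⟨h1, h2⟩ ⟨h3, h4, h5⟩
      refine ⟨?_, h5⟩
      rw [flatten_concat, In_append]
      refine ⟨h1, fun r hr s hs => ?_⟩
      exact (h4 r hr).1.1 s hs)
  -- tuples
  have htup : ∀ n, ∃ ζ : List ℕ, List.Forall₂ (fun y B => y ∈ FSl B) ζ (pre β n) ∧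
      ∀ E, Φ E → (∀ r ∈ FSl E, r ∈ FSl ζ) → ∃ r ∈ FSl E, ¬ G c S δ r := by
    intro n
    have h1 : ¬ Cov c S δ A Φ (pre β n) := fun h => hcov ⟨_, (hβ2 n).1, (hβ2 n).2, h⟩
    unfold Cov at h1
    push Not at h1
    obtain ⟨x, hx, hGx, h2⟩ := h1
    obtain ⟨ζ, hζ, h3⟩ := tuple hx.2.2
    refine ⟨ζ, hζ, fun E hE h4 => ?_⟩
    obtain ⟨r, hr, h5⟩ := h2 E hE
    refine ⟨r, hr, fun h6 => ?_⟩
    refine h5 (tuple_FSl hζ (h4 r hr)) h6 fun u hu => ?_
    rw [h3 r (FS0_of_FSl (h4 r hr)) u hu]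
    exact hGx u hu
  -- the tree
  let T : List ℕ → Prop := fun ζ => (∀ i y, ζ[i]? = some y → y ∈ FSl (β i)) ∧
      ∀ E, Φ E → (∀ r ∈ FSl E, r ∈ FSl ζ) → ∃ r ∈ FSl E, ¬ G c S δ r
  have hTpre : ∀ ζ ζ' : List ℕ, T (ζ ++ ζ') → T ζ := by
    rintro ζ ζ' ⟨h1, h2⟩
    refine ⟨fun i y hi => h1 i y ?_, fun E hE h3 => h2 E hE fun r hr =>
      FSl_sub (List.sublist_append_left ζ ζ') (h3 r hr)⟩
    have hlt : i < ζ.length := (List.getElem?_eq_some_iff.1 hi).1
    rw [List.getElem?_append_left hlt]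
    exact hi
  have hTlen : ∀ n, ∃ ζ : List ℕ, ζ.length = n ∧ T ζ := by
    intro n
    obtain ⟨ζ, hζ, h1⟩ := htup n
    have hl := hζ.length_eq
    rw [pre_length] at hl
    refine ⟨ζ, hl, fun i y hi => ?_, h1⟩
    obtain ⟨hlt, rfl⟩ := List.getElem?_eq_some_iff.1 hi
    have := List.Forall₂.get hζ hlt (by rw [pre_length]; omega)
    simpa [pre] using this
  let Ext : List ℕ → Prop := fun ζ => ∀ n, ∃ ζ' : List ℕ, n ≤ ζ'.length ∧ T (ζ ++ ζ')
  have hExt0 : Ext [] := by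
    intro n
    obtain ⟨ζ, h1, h2⟩ := hTlen n
    exact ⟨ζ, h1.ge, h2⟩
  have hExt1 : ∀ ζ, Ext ζ → ∃ a, Ext (ζ ++ [a]) := by
    intro ζ h
    by_contra hno
    push Not at hno
    have hno' : ∀ a, ∃ n, ∀ ζ' : List ℕ, T ((ζ ++ [a]) ++ ζ') → ζ'.length < n := by
      intro a
      have := hno a
      simp only [Ext] at this
      push Not at this
      obtain ⟨n, hn⟩ := this
      refine ⟨n, fun ζ' hζ' => ?_⟩
      by_contra hlt
      exact hn ζ' (by omega) hζ'
    choose N hN using hno'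
    obtain ⟨ζ', h1, h2⟩ := h ((((FSl (β ζ.length)).map N).sum) + 1)
    rcases ζ' with _ | ⟨a, ζ''⟩
    · simp at h1
    · have h3 : T ((ζ ++ [a]) ++ ζ'') := by
        rw [List.append_assoc]
        exact h2
      have h4 := hN a ζ'' h3
      have h5 : a ∈ FSl (β ζ.length) := by
        refine h3.1 ζ.length a ?_
        simp
      have h6 : N a ≤ ((FSl (β ζ.length)).map N).sum :=
        List.le_sum_of_mem (List.mem_map.2 ⟨a, h5, rfl⟩)
      rw [List.length_cons] at h1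
      omega
  have hβgraph : AR fun p : ℕ × List ℕ => β p.1 = p.2 := by
    have h1 : AR fun p : (ℕ × List ℕ) × List (List ℕ) =>
        p.2.length = p.1.1 + 1 ∧ p.2 = pre β p.2.length ∧ p.2[p.1.1]? = some p.1.2 := by
      refine AR.and ?_ (AR.and ?_ ?_)
      · exact AR.eq (Primrec.list_length.comp .snd)
          (Primrec.succ.comp (Primrec.fst.comp .fst))
      · exact hβ3.sub .snd
      · exact AR.eq (Primrec.list_getElem?.comp .snd (Primrec.fst.comp .fst))
          (Primrec.option_some.comp (Primrec.snd.comp .fst))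
    refine (AR.ex (p := fun (p : ℕ × List ℕ) (l : List (List ℕ)) =>
      l.length = p.1 + 1 ∧ l = pre β l.length ∧ l[p.1]? = some p.2) h1).congr fun p => ?_
    constructor
    · rintro ⟨l, h2, h3, h4⟩
      rw [h3, h2, pre_succ] at h4
      simpa using h4
    · rintro h
      refine ⟨pre β (p.1 + 1), by simp, by simp, ?_⟩
      rw [pre_succ, List.getElem?_append_right (by simp)]
      simp [h]
  have hT : AR T := by
    refine AR.and ?_ ?_
    · refine AR.all (AR.all (AR.imp ?_ ?_))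
      · exact AR.eq (Primrec.list_getElem?.comp (Primrec.fst.comp .fst) (Primrec.snd.comp .fst))
          (Primrec.option_some.comp .snd)
      · refine (AR.ex (p := fun (q : (List ℕ × ℕ) × ℕ) (B : List ℕ) =>
          β q.1.2 = B ∧ q.2 ∈ FSl B) (AR.and ?_ ?_)).congr fun q => ?_
        · exact hβgraph.sub (f := fun q : ((List ℕ × ℕ) × ℕ) × List ℕ => (q.1.1.2, q.2))
            (Primrec.pair (Primrec.snd.comp (Primrec.fst.comp .fst)) .snd)
        · exact AR.mem (Primrec.snd.comp .fst) (FSl_prim.comp .snd)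
        · constructor
          · rintro ⟨B, rfl, h⟩
            exact h
          · intro h
            exact ⟨_, rfl, h⟩
    · refine AR.all (AR.imp (hΦ.sub .snd) (AR.imp ?_ ?_))
      · exact AR.allIn (g := fun q : List ℕ × List ℕ => FSl q.2) (FSl_prim.comp .snd)
          (AR.mem .snd (FSl_prim.comp (Primrec.fst.comp .fst)))
      · exact AR.exIn (g := fun q : List ℕ × List ℕ => FSl q.2) (FSl_prim.comp .snd)
          (hG.sub .snd).not
  have hExt : AR Ext := by
    refine AR.all (AR.ex (AR.and ?_ ?_))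
    · exact AR.le (Primrec.snd.comp .fst) (Primrec.list_length.comp .snd)
    · exact hT.sub (Primrec.list_append.comp (Primrec.fst.comp .fst) .snd)
  obtain ⟨g, hg1, hg2, hg3⟩ := leastPath (R := fun (ζ : List ℕ) a => Ext (ζ ++ [a]))
    (Q := Ext) (hExt.sub (Primrec.list_append.comp .fst (Primrec.list_cons.comp .snd (.const []))))
    hExt0 hExt1 (fun _ _ _ h => h)
  have hgT : ∀ n, T (pre g n) := by
    intro n
    obtain ⟨ζ', -, h⟩ := hg2 n 0
    exact hTpre _ _ h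
  have hgβ : ∀ n, g n ∈ FSl (β n) := by
    intro n
    refine (hgT (n + 1)).1 n (g n) ?_
    rw [pre_succ, List.getElem?_append_right (by simp)]
    simp
  have hgn : ∀ n, n < g n := by
    intro n
    have := ((hβ1 n).2.1 _ (hgβ n)).2
    rwa [pre_length] at this
  have hgF : ∀ n, List.Forall₂ (fun y B => y ∈ FSl B) (pre g n) (pre β n) := by
    intro n
    induction n with
    | zero => exact .nil
    | succ n ih =>
      rw [pre_succ, pre_succ]
      exact List.rel_append ih (.cons (hgβ n) .nil)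
  refine ⟨fun x => ∃ n, x ∈ FSl (pre g n), ?_, ?_, ?_, ?_⟩
  · have h1 : AR fun x : ℕ => ∃ l : List ℕ, l = pre g l.length ∧ x ∈ FSl l :=
      AR.ex (AR.and (hg3.sub .snd) (AR.mem .fst (FSl_prim.comp .snd)))
    refine h1.congr fun x => ?_
    constructor
    · rintro ⟨l, h2, h3⟩
      exact ⟨l.length, h2 ▸ h3⟩
    · rintro ⟨n, hn⟩
      exact ⟨pre g n, by simp, hn⟩
  · intro D hD N
    have hex : ∃ n, ∀ r ∈ FSl D, r ∈ FSl (pre g n) := by
      have : ∀ L : List ℕ, (∀ r ∈ L, ∃ n, r ∈ FSl (pre g n)) →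
          ∃ n, ∀ r ∈ L, r ∈ FSl (pre g n) := by
        intro L
        induction L with
        | nil => exact fun _ => ⟨0, by simp⟩
        | cons a L ih =>
          intro h
          obtain ⟨n, hn⟩ := ih fun r hr => h r (List.mem_cons_of_mem _ hr)
          obtain ⟨m, hm⟩ := h a List.mem_cons_self
          refine ⟨max m n, fun r hr => ?_⟩
          rcases List.mem_cons.1 hr with rfl | hr
          · exact FSl_sub (pre_prefix g (le_max_left m n)).sublist hm
          · exact FSl_sub (pre_prefix g (le_max_right m n)).sublist (hn r hr)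
      exact this _ hD
    obtain ⟨n, hn⟩ := hex
    refine ⟨g (max n N), ?_, fun r hr => ?_⟩
    · have h1 := hgn (max n N)
      have h2 := le_max_right n N
      omega
    · rcases mem_FSl_append.1 hr with h | ⟨a, ha, b, hb, rfl⟩
      · exact hD r h
      · rw [mem_FSl_singleton] at hb
        subst hb
        refine ⟨max n N + 1, ?_⟩
        rw [pre_succ]
        refine mem_FSl_append.2 (Or.inr ⟨a, ?_, _, mem_FSl_singleton.2 rfl, rfl⟩)
        rcases mem_FS0_iff.1 ha with rfl | h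
        · exact zero_mem_FS0 _
        · exact FS0_of_FSl (FSl_sub (pre_prefix g (le_max_left n N)).sublist (hn a h))
  · rintro x ⟨n, hn⟩
    exact (hβ2 n).1 x (tuple_FSl (hgF n) hn)
  · intro E hE hin
    have hex : ∃ n, ∀ r ∈ FSl E, r ∈ FSl (pre g n) := by
      have : ∀ L : List ℕ, (∀ r ∈ L, ∃ n, r ∈ FSl (pre g n)) →
          ∃ n, ∀ r ∈ L, r ∈ FSl (pre g n) := by
        intro L
        induction L with
        | nil => exact fun _ => ⟨0, by simp⟩
        | cons a L ih =>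
          intro h
          obtain ⟨n, hn⟩ := ih fun r hr => h r (List.mem_cons_of_mem _ hr)
          obtain ⟨m, hm⟩ := h a List.mem_cons_self
          refine ⟨max m n, fun r hr => ?_⟩
          rcases List.mem_cons.1 hr with rfl | hr
          · exact FSl_sub (pre_prefix g (le_max_left m n)).sublist hm
          · exact FSl_sub (pre_prefix g (le_max_right m n)).sublist (hn r hr)
      exact this _ hin
    obtain ⟨n, hn⟩ := hex
    exact (hgT n).2 E hE hn

end ar2

end Pool.Agent.Work.MP_69fea5_lc.AC
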