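import Pool.Agent.Work.MP_69fea5_lc.AC.Forcing

/-!
Countability of the class of arithmetical predicates, and arithmetical representations of the
functions recursive in a set together with arithmetical oracles.
-/

set_option autoImplicit false

namespace Pool.Agent.Work.MP_69fea5_lc.AC

open Encodable

/-- levels of the arithmetical closure -/
def Lev : ℕ → Set (ℕ → Prop)
  | 0 => Set.range fun (e : Nat.Partrec.Code) => fun n : ℕ => 1 ∈ e.eval n
  | n + 1 => ((Lev n ∪ (fun p => fun m => ¬ p m) '' Lev n) ∪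
      Set.image2 (fun p q => fun m => p m ∧ q m) (Lev n) (Lev n)) ∪
      (fun p => fun m => ∃ k, p (Nat.pair m k)) '' Lev n

theorem Lev_countable (n : ℕ) : (Lev n).Countable := by
  induction n with
  | zero => exact Set.countable_range _
  | succ n ih =>
    exact ((ih.union (ih.image _)).union (ih.image2 ih _)).union (ih.image _)

theorem Lev_mono {m n : ℕ} (h : m ≤ n) : Lev m ⊆ Lev n := by
  induction h with
  | refl => exact subset_rfl
  | step _ ih => exact fun p hp => Or.inl (Or.inl (Or.inl (ih hp)))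

theorem Arith.lev {p : ℕ → Prop} (hp : Arith p) : ∃ n, p ∈ Lev n := by
  induction hp with
  | @comp p h =>
    refine ⟨0, ?_⟩
    obtain ⟨f, hf, rfl⟩ := ComputablePred.computable_iff.1 h
    have h1 : Computable fun n : ℕ => encode (f n) := Computable.encode.comp hf
    obtain ⟨e, he⟩ := Nat.Partrec.Code.exists_code.1 (Partrec.nat_iff.1 h1.partrec)
    refine ⟨e, ?_⟩
    funext n
    simp only [he]
    cases hfn : f n <;> simp [hfn]
  | @compl p _ ih =>
    obtain ⟨n, hn⟩ := ih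
    exact ⟨n + 1, Or.inl (Or.inl (Or.inr ⟨p, hn, rfl⟩))⟩
  | @inter p q _ _ ih1 ih2 =>
    obtain ⟨n, hn⟩ := ih1
    obtain ⟨m, hm⟩ := ih2
    exact ⟨max n m + 1, Or.inl (Or.inr ⟨p, Lev_mono (le_max_left n m) hn, q,
      Lev_mono (le_max_right n m) hm, rfl⟩)⟩
  | @proj p _ ih =>
    obtain ⟨n, hn⟩ := ih
    exact ⟨n + 1, Or.inr ⟨p, hn, rfl⟩⟩

theorem Arith_countable : {p : ℕ → Prop | Arith p}.Countable := by
  refine (Set.countable_iUnion Lev_countable).mono fun p hp => ?_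
  obtain ⟨n, hn⟩ := Arith.lev hp
  exact Set.mem_iUnion.2 ⟨n, hn⟩

theorem AR_countable (α : Type*) [Primcodable α] : {p : α → Prop | AR p}.Countable := by
  refine Set.MapsTo.countable_of_injOn (f := fun (p : α → Prop) (n : ℕ) =>
    ∃ a, (decode n : Option α) = some a ∧ p a) (t := {p : ℕ → Prop | Arith p})
    (fun p hp => hp) ?_ Arith_countable
  intro p _ q _ h
  funext a
  have := congrFun h (encode a)
  simpa using this

/-- the first `ℓ` bits of the characteristic function of `P` -/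
noncomputable def bits (P : Set ℕ) (ℓ : ℕ) : List Bool := by
  classical
  exact (List.range ℓ).map fun i => decide (i ∈ P)

theorem bits_length (P : Set ℕ) (ℓ : ℕ) : (bits P ℓ).length = ℓ := by simp [bits]

theorem bits_mono (P : Set ℕ) {m n : ℕ} (h : m ≤ n) : bits P m <+: bits P n := by
  induction h with
  | refl => exact List.prefix_refl _
  | step _ ih =>
    refine ih.trans ?_
    simp only [bits, List.range_succ, List.map_append]
    exact List.prefix_append _ _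

theorem bits_get (P : Set ℕ) (ℓ i : ℕ) (b : Bool) :
    (bits P ℓ)[i]? = some b ↔ i < ℓ ∧ (b = true ↔ i ∈ P) := by
  classical
  rw [List.getElem?_eq_some_iff]
  simp only [bits, List.length_map, List.length_range, List.getElem_map, List.getElem_range]
  constructor
  · rintro ⟨h, rfl⟩
    exact ⟨h, by simp⟩
  · rintro ⟨h, h2⟩
    refine ⟨h, ?_⟩
    by_cases hi : i ∈ P
    · rw [h2.2 hi]
      simp [hi]
    · have : b = false := by
        cases b
        · rfl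
        · exact absurd (h2.1 rfl) hi
      rw [this]
      simp [hi]

/-- the partial function `f` has an arithmetical monotone representation over `P` -/
def Rep (P : Set ℕ) (f : ℕ →. ℕ) : Prop :=
  ∃ Θ : List Bool × ℕ × ℕ → Prop, AR Θ ∧
    (∀ β β' : List Bool, β <+: β' → ∀ n v, Θ (β, n, v) → Θ (β', n, v)) ∧
    ∀ n v, v ∈ f n ↔ ∃ ℓ, Θ (bits P ℓ, n, v)

theorem Rep.total {P : Set ℕ} {f : ℕ → ℕ} (hf : Primrec f) : Rep P fun n => Part.some (f n) := by
  refine ⟨fun q => q.2.2 = f q.2.1, AR.eq (Primrec.snd.comp .snd)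
    (hf.comp (Primrec.fst.comp .snd)), fun _ _ _ _ _ h => h, fun n v => ?_⟩
  simp

theorem Rep.arith {P : Set ℕ} {A : ℕ → Prop} (hA : AR A) {f : ℕ →. ℕ}
    (hf : ∀ n v, v ∈ f n ↔ (A n ∧ v = 1) ∨ (¬ A n ∧ v = 0)) : Rep P f := by
  refine ⟨fun q => (A q.2.1 ∧ q.2.2 = 1) ∨ (¬ A q.2.1 ∧ q.2.2 = 0), ?_,
    fun _ _ _ _ _ h => h, fun n v => ?_⟩
  · have h1 : AR fun q : List Bool × ℕ × ℕ => A q.2.1 := hA.sub (Primrec.fst.comp .snd)
    exact (h1.and (AR.eq (Primrec.snd.comp .snd) (.const 1))).or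
      (h1.not.and (AR.eq (Primrec.snd.comp .snd) (.const 0)))
  · rw [hf]
    simp

theorem Rep.self {P : Set ℕ} {f : ℕ →. ℕ}
    (hf : ∀ n v, v ∈ f n ↔ (n ∈ P ∧ v = 1) ∨ (n ∉ P ∧ v = 0)) : Rep P f := by
  refine ⟨fun q => (q.1[q.2.1]? = some true ∧ q.2.2 = 1) ∨
    (q.1[q.2.1]? = some false ∧ q.2.2 = 0), ?_, ?_, fun n v => ?_⟩
  · have h1 : ∀ b : Bool, AR fun q : List Bool × ℕ × ℕ => q.1[q.2.1]? = some b := fun b =>
      AR.eq (Primrec.list_getElem?.comp .fst (Primrec.fst.comp .snd)) (.const _)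
    exact ((h1 true).and (AR.eq (Primrec.snd.comp .snd) (.const 1))).or
      ((h1 false).and (AR.eq (Primrec.snd.comp .snd) (.const 0)))
  · intro β β' h n v hΘ
    obtain ⟨γ, rfl⟩ := h
    have key : ∀ b, β[n]? = some b → (β ++ γ)[n]? = some b := by
      intro b hb
      rw [List.getElem?_append_left (List.getElem?_eq_some_iff.1 hb).1]
      exact hb
    rcases hΘ with ⟨h1, h2⟩ | ⟨h1, h2⟩
    · exact Or.inl ⟨key _ h1, h2⟩
    · exact Or.inr ⟨key _ h1, h2⟩
  · rw [hf]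
    simp only [bits_get]
    constructor
    · rintro (⟨h1, h2⟩ | ⟨h1, h2⟩)
      · exact ⟨n + 1, Or.inl ⟨⟨by omega, by simpa using h1⟩, h2⟩⟩
      · exact ⟨n + 1, Or.inr ⟨⟨by omega, by simpa using h1⟩, h2⟩⟩
    · rintro ⟨ℓ, ⟨⟨-, h1⟩, h2⟩ | ⟨⟨-, h1⟩, h2⟩⟩
      · exact Or.inl ⟨by simpa using h1, h2⟩
      · exact Or.inr ⟨by simpa using h1, h2⟩

theorem Rep.pair {P : Set ℕ} {f h : ℕ →. ℕ} (hf : Rep P f) (hh : Rep P h) :
    Rep P fun n => (Nat.pair <$> f n <*> h n) := by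
  obtain ⟨Θ, h1, h2, h3⟩ := hf
  obtain ⟨Θ', h1', h2', h3'⟩ := hh
  refine ⟨fun q => ∃ v : ℕ, ∃ w : ℕ, Nat.pair v w = q.2.2 ∧ Θ (q.1, q.2.1, v) ∧
    Θ' (q.1, q.2.1, w), ?_, ?_, fun n v => ?_⟩
  · refine AR.ex (AR.ex (AR.and ?_ (AR.and ?_ ?_)))
    · exact AR.eq (Primrec₂.natPair.comp (Primrec.snd.comp .fst) .snd)
        (Primrec.snd.comp (Primrec.snd.comp (Primrec.fst.comp .fst)))
    · exact h1.sub (f := fun q : ((List Bool × ℕ × ℕ) × ℕ) × ℕ => (q.1.1.1, q.1.1.2.1, q.1.2))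
        (Primrec.pair (Primrec.fst.comp (Primrec.fst.comp .fst)) (Primrec.pair
          (Primrec.fst.comp (Primrec.snd.comp (Primrec.fst.comp .fst))) (Primrec.snd.comp .fst)))
    · exact h1'.sub (f := fun q : ((List Bool × ℕ × ℕ) × ℕ) × ℕ => (q.1.1.1, q.1.1.2.1, q.2))
        (Primrec.pair (Primrec.fst.comp (Primrec.fst.comp .fst)) (Primrec.pair
          (Primrec.fst.comp (Primrec.snd.comp (Primrec.fst.comp .fst))) .snd))
  · rintro β β' hβ n v ⟨a, b, h4, h5, h6⟩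
    exact ⟨a, b, h4, h2 _ _ hβ _ _ h5, h2' _ _ hβ _ _ h6⟩
  · have hm : v ∈ (Nat.pair <$> f n <*> h n) ↔
        ∃ a b, Nat.pair a b = v ∧ a ∈ f n ∧ b ∈ h n := by
      simp only [Seq.seq, Part.map_eq_map, Part.mem_bind_iff, Part.mem_map_iff]
      constructor
      · rintro ⟨g, ⟨a, ha, rfl⟩, b, hb, rfl⟩
        exact ⟨a, b, rfl, ha, hb⟩
      · rintro ⟨a, b, rfl, ha, hb⟩
        exact ⟨_, ⟨a, ha, rfl⟩, b, hb, rfl⟩
    rw [hm]
    constructor
    · rintro ⟨a, b, h4, h5, h6⟩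
      obtain ⟨ℓ, hℓ⟩ := (h3 n a).1 h5
      obtain ⟨ℓ', hℓ'⟩ := (h3' n b).1 h6
      exact ⟨max ℓ ℓ', a, b, h4, h2 _ _ (bits_mono P (le_max_left _ _)) _ _ hℓ,
        h2' _ _ (bits_mono P (le_max_right _ _)) _ _ hℓ'⟩
    · rintro ⟨ℓ, a, b, h4, h5, h6⟩
      exact ⟨a, b, h4, (h3 n a).2 ⟨ℓ, h5⟩, (h3' n b).2 ⟨ℓ, h6⟩⟩

theorem Rep.comp {P : Set ℕ} {f h : ℕ →. ℕ} (hf : Rep P f) (hh : Rep P h) :
    Rep P fun n => h n >>= f := by
  obtain ⟨Θ, h1, h2, h3⟩ := hf
  obtain ⟨Θ', h1', h2', h3'⟩ := hh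
  refine ⟨fun q => ∃ w : ℕ, Θ' (q.1, q.2.1, w) ∧ Θ (q.1, w, q.2.2), ?_, ?_, fun n v => ?_⟩
  · refine AR.ex (AR.and ?_ ?_)
    · exact h1'.sub (f := fun q : (List Bool × ℕ × ℕ) × ℕ => (q.1.1, q.1.2.1, q.2))
        (Primrec.pair (Primrec.fst.comp .fst) (Primrec.pair
          (Primrec.fst.comp (Primrec.snd.comp .fst)) .snd))
    · exact h1.sub (f := fun q : (List Bool × ℕ × ℕ) × ℕ => (q.1.1, q.2, q.1.2.2))
        (Primrec.pair (Primrec.fst.comp .fst) (Primrec.pair .snd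
          (Primrec.snd.comp (Primrec.snd.comp .fst))))
  · rintro β β' hβ n v ⟨w, h5, h6⟩
    exact ⟨w, h2' _ _ hβ _ _ h5, h2 _ _ hβ _ _ h6⟩
  · change v ∈ (h n).bind f ↔ _
    rw [Part.mem_bind_iff]
    constructor
    · rintro ⟨w, h5, h6⟩
      obtain ⟨ℓ', hℓ'⟩ := (h3' n w).1 h5
      obtain ⟨ℓ, hℓ⟩ := (h3 w v).1 h6
      exact ⟨max ℓ ℓ', w, h2' _ _ (bits_mono P (le_max_right _ _)) _ _ hℓ',
        h2 _ _ (bits_mono P (le_max_left _ _)) _ _ hℓ⟩
    · rintro ⟨ℓ, w, h5, h6⟩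
      exact ⟨w, (h3' n w).2 ⟨ℓ, h5⟩, (h3 w v).2 ⟨ℓ, h6⟩⟩

theorem Rep.prec {P : Set ℕ} {f h : ℕ →. ℕ} (hf : Rep P f) (hh : Rep P h) :
    Rep P (fun p => Nat.rec (motive := fun _ => Part ℕ) (f p.unpair.1)
      (fun y IH => IH.bind fun i => h (Nat.pair p.unpair.1 (Nat.pair y i))) p.unpair.2) := by
  obtain ⟨Θ, h1, h2, h3⟩ := hf
  obtain ⟨Θ', h1', h2', h3'⟩ := hh
  refine ⟨fun q => ∃ L : List ℕ, (∃ w : ℕ, L[0]? = some w ∧ Θ (q.1, q.2.1.unpair.1, w)) ∧
    (∀ y : ℕ, y < q.2.1.unpair.2 → ∃ w : ℕ, ∃ w' : ℕ, L[y]? = some w ∧ L[y + 1]? = some w' ∧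
      Θ' (q.1, Nat.pair q.2.1.unpair.1 (Nat.pair y w), w')) ∧
    L[q.2.1.unpair.2]? = some q.2.2, ?_, ?_, fun n v => ?_⟩
  · have hn1 : Primrec fun q : List Bool × ℕ × ℕ => q.2.1.unpair.1 :=
      Primrec.fst.comp (Primrec.unpair.comp (Primrec.fst.comp .snd))
    have hn2 : Primrec fun q : List Bool × ℕ × ℕ => q.2.1.unpair.2 :=
      Primrec.snd.comp (Primrec.unpair.comp (Primrec.fst.comp .snd))
    refine AR.ex (AR.and (AR.ex (AR.and ?_ ?_)) (AR.and (AR.all (AR.imp ?_ (AR.ex (AR.ex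
      (AR.and ?_ (AR.and ?_ ?_)))))) ?_))
    · exact AR.eq (Primrec.list_getElem?.comp (Primrec.snd.comp .fst) (.const 0))
        (Primrec.option_some.comp .snd)
    · exact h1.sub (f := fun q : ((List Bool × ℕ × ℕ) × List ℕ) × ℕ =>
        (q.1.1.1, q.1.1.2.1.unpair.1, q.2)) (Primrec.pair (Primrec.fst.comp (Primrec.fst.comp
          .fst)) (Primrec.pair (hn1.comp (Primrec.fst.comp .fst)) .snd))
    · exact AR.lt .snd (hn2.comp (Primrec.fst.comp .fst))
    · exact AR.eq (Primrec.list_getElem?.comp (Primrec.snd.comp (Primrec.fst.comp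
        (Primrec.fst.comp .fst))) (Primrec.snd.comp (Primrec.fst.comp .fst)))
        (Primrec.option_some.comp (Primrec.snd.comp .fst))
    · exact AR.eq (Primrec.list_getElem?.comp (Primrec.snd.comp (Primrec.fst.comp
        (Primrec.fst.comp .fst))) (Primrec.succ.comp (Primrec.snd.comp (Primrec.fst.comp .fst))))
        (Primrec.option_some.comp .snd)
    · exact h1'.sub (f := fun q : ((((List Bool × ℕ × ℕ) × List ℕ) × ℕ) × ℕ) × ℕ =>
        (q.1.1.1.1.1, Nat.pair q.1.1.1.1.2.1.unpair.1 (Nat.pair q.1.1.2 q.1.2), q.2))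
        (Primrec.pair (Primrec.fst.comp (Primrec.fst.comp (Primrec.fst.comp (Primrec.fst.comp
          .fst)))) (Primrec.pair (Primrec₂.natPair.comp (hn1.comp (Primrec.fst.comp
            (Primrec.fst.comp (Primrec.fst.comp .fst)))) (Primrec₂.natPair.comp
              (Primrec.snd.comp (Primrec.fst.comp .fst)) (Primrec.snd.comp .fst))) .snd))
    · exact AR.eq (Primrec.list_getElem?.comp .snd (hn2.comp .fst))
        (Primrec.option_some.comp (Primrec.snd.comp (Primrec.snd.comp .fst)))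
  · rintro β β' hβ n v ⟨L, ⟨w, h5, h6⟩, h7, h8⟩
    refine ⟨L, ⟨w, h5, h2 _ _ hβ _ _ h6⟩, fun y hy => ?_, h8⟩
    obtain ⟨w, w', h9, h10, h11⟩ := h7 y hy
    exact ⟨w, w', h9, h10, h2' _ _ hβ _ _ h11⟩
  · obtain ⟨a, k, rfl⟩ : ∃ a k, n = Nat.pair a k := ⟨n.unpair.1, n.unpair.2, by simp⟩
    simp only [Nat.unpair_pair]
    induction k generalizing v with
    | zero =>
      simp only [not_lt_zero, false_implies, implies_true, true_and]
      constructor
      · intro hv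
        obtain ⟨ℓ, hℓ⟩ := (h3 a v).1 hv
        exact ⟨ℓ, [v], ⟨v, rfl, hℓ⟩, rfl⟩
      · rintro ⟨ℓ, L, ⟨w, h5, h6⟩, h7⟩
        rw [h5] at h7
        obtain rfl : w = v := by simpa using h7
        exact (h3 a w).2 ⟨ℓ, h6⟩
    | succ k ih =>
      simp only [Part.mem_bind_iff]
      constructor
      · rintro ⟨i, h5, h6⟩
        obtain ⟨ℓ, L, ⟨w, h7, h8⟩, h9, h10⟩ := (ih i).1 h5
        obtain ⟨ℓ', hℓ'⟩ := (h3' _ v).1 h6
        have hL : k < L.length := (List.getElem?_eq_some_iff.1 h10).1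
        have hg : ∀ j, j ≤ k → (L.take (k + 1) ++ [v])[j]? = L[j]? := by
          intro j hj
          rw [List.getElem?_append_left (by rw [List.length_take]; omega),
            List.getElem?_take_of_lt (by omega)]
        have hg' : (L.take (k + 1) ++ [v])[k + 1]? = some v := by
          rw [List.getElem?_append_right (by rw [List.length_take]; omega), List.length_take]
          have : k + 1 - min (k + 1) L.length = 0 := by omega
          rw [this]
          rfl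
        refine ⟨max ℓ ℓ', L.take (k + 1) ++ [v], ⟨w, ?_, ?_⟩, fun y hy => ?_, ?_⟩
        · rw [hg 0 (by omega)]
          exact h7
        · exact h2 _ _ (bits_mono P (le_max_left _ _)) _ _ h8
        · rcases Nat.lt_succ_iff_lt_or_eq.1 hy with h11 | rfl
          · obtain ⟨w, w', h12, h13, h14⟩ := h9 y h11
            refine ⟨w, w', ?_, ?_, h2' _ _ (bits_mono P (le_max_left _ _)) _ _ h14⟩
            · rw [hg y (by omega)]
              exact h12
            · rw [hg (y + 1) (by omega)]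
              exact h13
          · refine ⟨i, v, ?_, hg', h2' _ _ (bits_mono P (le_max_right _ _)) _ _ hℓ'⟩
            rw [hg y le_rfl]
            exact h10
        · exact hg'
      · rintro ⟨ℓ, L, h7, h8, h9⟩
        obtain ⟨w, w', h12, h13, h14⟩ := h8 k (by omega)
        rw [h13] at h9
        obtain rfl : w' = v := by simpa using h9
        refine ⟨w, (ih w).2 ⟨ℓ, L, h7, fun y hy => h8 y (by omega), h12⟩, ?_⟩
        exact (h3' _ w').2 ⟨ℓ, h14⟩

theorem Rep.rfind {P : Set ℕ} {f : ℕ →. ℕ} (hf : Rep P f) :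
    Rep P fun a => Nat.rfind fun n => (fun m => m = 0) <$> f (Nat.pair a n) := by
  obtain ⟨Θ, h1, h2, h3⟩ := hf
  refine ⟨fun q => Θ (q.1, Nat.pair q.2.1 q.2.2, 0) ∧ ∀ m : ℕ, m < q.2.2 → ∃ w : ℕ, 0 < w ∧
    Θ (q.1, Nat.pair q.2.1 m, w), ?_, ?_, fun n v => ?_⟩
  · refine AR.and ?_ (AR.all (AR.imp ?_ (AR.ex (AR.and ?_ ?_))))
    · exact h1.sub (f := fun q : List Bool × ℕ × ℕ => (q.1, Nat.pair q.2.1 q.2.2, 0))
        (Primrec.pair .fst (Primrec.pair (Primrec₂.natPair.comp (Primrec.fst.comp .snd)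
          (Primrec.snd.comp .snd)) (.const 0)))
    · exact AR.lt .snd (Primrec.snd.comp (Primrec.snd.comp .fst))
    · exact AR.lt (.const 0) .snd
    · exact h1.sub (f := fun q : ((List Bool × ℕ × ℕ) × ℕ) × ℕ =>
        (q.1.1.1, Nat.pair q.1.1.2.1 q.1.2, q.2))
        (Primrec.pair (Primrec.fst.comp (Primrec.fst.comp .fst)) (Primrec.pair
          (Primrec₂.natPair.comp (Primrec.fst.comp (Primrec.snd.comp (Primrec.fst.comp .fst)))
            (Primrec.snd.comp .fst)) .snd))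
  · rintro β β' hβ n v ⟨h5, h6⟩
    refine ⟨h2 _ _ hβ _ _ h5, fun m hm => ?_⟩
    obtain ⟨w, h7, h8⟩ := h6 m hm
    exact ⟨w, h7, h2 _ _ hβ _ _ h8⟩
  · rw [Nat.mem_rfind]
    have e1 : true ∈ ((fun m => decide (m = 0)) <$> f (Nat.pair n v) : Part Bool) ↔
        0 ∈ f (Nat.pair n v) := by
      simp only [Part.map_eq_map, Part.mem_map_iff, decide_eq_true_eq]
      constructor
      · rintro ⟨a, ha, rfl⟩
        exact ha
      · intro h
        exact ⟨0, h, rfl⟩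
    have e2 : ∀ m, false ∈ ((fun m => decide (m = 0)) <$> f (Nat.pair n m) : Part Bool) ↔
        ∃ w, 0 < w ∧ w ∈ f (Nat.pair n m) := by
      intro m
      simp only [Part.map_eq_map, Part.mem_map_iff, decide_eq_false_iff_not]
      constructor
      · rintro ⟨a, ha, h⟩
        exact ⟨a, by omega, ha⟩
      · rintro ⟨w, h, hw⟩
        exact ⟨w, hw, by omega⟩
    constructor
    · rintro ⟨h5, h6⟩
      obtain ⟨ℓ, hℓ⟩ := (h3 _ _).1 (e1.1 h5)
      have key : ∀ k, k ≤ v → ∃ ℓ', ∀ m, m < k → ∃ w, 0 < w ∧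
          Θ (bits P ℓ', Nat.pair n m, w) := by
        intro k
        induction k with
        | zero => exact fun _ => ⟨0, fun m hm => absurd hm (by omega)⟩
        | succ k ih =>
          intro hk
          obtain ⟨ℓ', hℓ'⟩ := ih (by omega)
          obtain ⟨w, hw, h7⟩ := (e2 k).1 (h6 (by omega))
          obtain ⟨ℓ'', hℓ''⟩ := (h3 _ _).1 h7
          refine ⟨max ℓ' ℓ'', fun m hm => ?_⟩
          rcases Nat.lt_succ_iff_lt_or_eq.1 hm with h8 | rfl
          · obtain ⟨w, h9, h10⟩ := hℓ' m h8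
            exact ⟨w, h9, h2 _ _ (bits_mono P (le_max_left _ _)) _ _ h10⟩
          · exact ⟨w, hw, h2 _ _ (bits_mono P (le_max_right _ _)) _ _ hℓ''⟩
      obtain ⟨ℓ', hℓ'⟩ := key v le_rfl
      refine ⟨max ℓ ℓ', h2 _ _ (bits_mono P (le_max_left _ _)) _ _ hℓ, fun m hm => ?_⟩
      obtain ⟨w, h9, h10⟩ := hℓ' m hm
      exact ⟨w, h9, h2 _ _ (bits_mono P (le_max_right _ _)) _ _ h10⟩
    · rintro ⟨ℓ, h5, h6⟩
      refine ⟨e1.2 ((h3 _ _).2 ⟨ℓ, h5⟩), fun {m} hm => (e2 m).2 ?_⟩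
      obtain ⟨w, h7, h8⟩ := h6 m hm
      exact ⟨w, h7, (h3 _ _).2 ⟨ℓ, h8⟩⟩

theorem rep_of_rec {P : Set ℕ} {O : Set (ℕ →. ℕ)} (hO : ∀ g ∈ O, Rep P g) {f : ℕ →. ℕ}
    (hf : Nat.RecursiveIn O f) : Rep P f := by
  induction hf with
  | zero => exact Rep.total (.const 0)
  | succ => exact Rep.total .succ
  | left => exact Rep.total (Primrec.fst.comp .unpair)
  | right => exact Rep.total (Primrec.snd.comp .unpair)
  | oracle g hg => exact hO g hg
  | pair _ _ h1 h2 => exact h1.pair h2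
  | comp _ _ h1 h2 => exact h1.comp h2
  | prec _ _ h1 h2 => exact h1.prec h2
  | rfind _ h1 => exact h1.rfind

end Pool.Agent.Work.MP_69fea5_lc.AC
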