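import Pool.Agent.Work.MP_69fea5_lc.AC.Func

/-!
The main construction.
-/

set_option autoImplicit false

namespace Pool.Agent.Work.MP_69fea5_lc.AC

open Encodable

/-- the stem `σ` decides that `m` is enumerated by `Θ` -/
def Acc (Θ : List Bool × ℕ → Prop) (σ : List ℕ) (m : ℕ) : Prop :=
  ∃ β : List Bool, Θ (β, m) ∧ (∃ a ∈ σ, β.length ≤ a) ∧
    ∀ i : ℕ, i < β.length → (β[i]? = some true ↔ i ∈ σ)

theorem AR_Acc {Θ : List Bool × ℕ → Prop} (hΘ : AR Θ) :
    AR fun q : List ℕ × ℕ => Acc Θ q.1 q.2 := by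
  refine AR.ex (AR.and ?_ (AR.and ?_ (AR.all (AR.imp ?_ (AR.iff ?_ ?_)))))
  · exact hΘ.sub (f := fun q : (List ℕ × ℕ) × List Bool => (q.2, q.1.2))
      (Primrec.pair .snd (Primrec.snd.comp .fst))
  · exact AR.exIn (g := fun q : (List ℕ × ℕ) × List Bool => q.1.1) (Primrec.fst.comp .fst)
      (AR.le (Primrec.list_length.comp (Primrec.snd.comp .fst)) .snd)
  · exact AR.lt .snd (Primrec.list_length.comp (Primrec.snd.comp .fst))
  · exact AR.eq (Primrec.list_getElem?.comp (Primrec.snd.comp .fst) .snd) (.const (some true))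
  · exact AR.mem .snd (Primrec.fst.comp (Primrec.fst.comp .fst))

theorem bits_eq {P : Set ℕ} {β : List Bool}
    (h : ∀ i : ℕ, i < β.length → (β[i]? = some true ↔ i ∈ P)) : β = bits P β.length := by
  refine List.ext_getElem? fun i => ?_
  by_cases hi : i < β.length
  · have h1 := h i hi
    rw [List.getElem?_eq_getElem hi] at h1 ⊢
    refine Eq.symm ?_
    rw [bits_get]
    refine ⟨hi, ?_⟩
    rw [← h1]
    simp
  · rw [List.getElem?_eq_none (by omega), List.getElem?_eq_none (by rw [bits_length]; omega)]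

variable {κ : Type*} [Finite κ]

theorem main (c : ℕ → κ) (hc : ∀ i, AR fun x => c x = i) (C : ℕ → ℕ → Prop)
    (hC : ∀ j, ¬ AR (C j)) :
    ∃ X : Set ℕ, X.Infinite ∧ (∀ x ∈ X, 0 < x) ∧
      (∃ i, ∀ F : Finset ℕ, F.Nonempty → (↑F : Set ℕ) ⊆ X → c (∑ x ∈ F, x) = i) ∧
      ∀ j, ∀ f : ℕ →. ℕ, Rep X f → ¬ ∀ m, C j m ↔ (f m).Dom := by
  -- enumeration of requirements
  obtain ⟨e, he⟩ := (AR_countable (List Bool × ℕ)).exists_eq_range
    ⟨fun _ => True, AR.const True⟩
  have heA : ∀ n, AR (e n) := fun n => by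
    have : e n ∈ {p : List Bool × ℕ → Prop | AR p} := by
      rw [he]
      exact ⟨n, rfl⟩
    exact this
  have heS : ∀ Θ : List Bool × ℕ → Prop, AR Θ → ∃ n, e n = Θ := fun Θ hΘ => by
    have : Θ ∈ {p : List Bool × ℕ → Prop | AR p} := hΘ
    rw [he] at this
    exact this
  -- one step
  have step : ∀ (n : ℕ) (p : Cond c), ∃ p' : Cond c, p'.Le p ∧ p.σ.length < p'.σ.length ∧
      ∃ m, (Acc (e n.unpair.1) p'.σ m ∧ ¬ C n.unpair.2 m) ∨
        (C n.unpair.2 m ∧ ∀ p'' : Cond c, p''.Le p' → ¬ Acc (e n.unpair.1) p''.σ m) := by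
    intro n p
    obtain ⟨p₁, h1, h2⟩ := length_step p hc
    obtain ⟨p₂, h3, m, h4⟩ := req_step p₁ hc (AR_Acc (heA n.unpair.1)) (hC n.unpair.2)
    refine ⟨p₂, h3.trans h1, ?_, m, h4⟩
    obtain ⟨E, h5, -⟩ := h3
    rw [h5, List.length_append]
    omega
  choose nx hnx1 hnx2 hnx3 using step
  obtain ⟨p₀⟩ := exists_cond c
  obtain ⟨p, hp0, hps⟩ : ∃ p : ℕ → Cond c, p 0 = p₀ ∧ ∀ n, p (n + 1) = nx n (p n) :=
    ⟨fun n => Nat.rec p₀ (fun n q => nx n q) n, rfl, fun n => rfl⟩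
  have hle : ∀ m n, m ≤ n → (p n).Le (p m) := by
    intro m n h
    induction h with
    | refl => exact Cond.Le.refl _
    | step _ ih =>
      refine Cond.Le.trans ?_ ih
      rw [hps]
      exact hnx1 _ _
  have hlen : ∀ n, n ≤ (p n).σ.length := by
    intro n
    induction n with
    | zero => exact Nat.zero_le _
    | succ n ih =>
      have := hnx2 n (p n)
      rw [← hps] at this
      omega
  have hpre : ∀ m n, m ≤ n → (p m).σ <+: (p n).σ := by
    intro m n h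
    obtain ⟨E, hE, -⟩ := hle m n h
    exact ⟨E, hE.symm⟩
  have hmem : ∀ m n a, m ≤ n → a ∈ (p m).σ → a ∈ (p n).σ := fun m n a h ha =>
    (hpre m n h).subset ha
  have hnd : ∀ n, (p n).σ.Nodup := fun n =>
    (p n).srt.1.imp fun h => Nat.ne_of_lt h
  let X : Set ℕ := {a | ∃ n, a ∈ (p n).σ}
  have hXinf : X.Infinite := by
    intro hfin
    have h1 : ∀ n, (p n).σ.toFinset ⊆ hfin.toFinset := by
      intro n a ha
      rw [Set.Finite.mem_toFinset]
      exact ⟨n, List.mem_toFinset.1 ha⟩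
    have h2 := Finset.card_le_card (h1 (hfin.toFinset.card + 1))
    rw [List.toFinset_card_of_nodup (hnd _)] at h2
    have h3 := hlen (hfin.toFinset.card + 1)
    omega
  -- initial segments of `X` are decided by the stems
  have hinit : ∀ n a i, a ∈ (p n).σ → i < a → (i ∈ X ↔ i ∈ (p n).σ) := by
    intro n a i ha hi
    constructor
    · rintro ⟨n', h1⟩
      rcases le_total n' n with h2 | h2
      · exact hmem n' n i h2 h1
      · obtain ⟨E, hE, -⟩ := hle n n' h2
        rw [hE] at h1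
        rcases List.mem_append.1 h1 with h3 | h3
        · exact h3
        · exfalso
          have h4 := (p n').srt.1
          rw [hE, List.pairwise_append] at h4
          have := h4.2.2 a ha i h3
          omega
    · exact fun h => ⟨n, h⟩
  have hfin : ∀ F : Finset ℕ, (↑F : Set ℕ) ⊆ X → ∃ n, ∀ x ∈ F, x ∈ (p n).σ := by
    intro F
    induction F using Finset.induction_on with
    | empty => exact fun _ => ⟨0, by simp⟩
    | insert a F _ ih =>
      intro h
      rw [Finset.coe_insert, Set.insert_subset_iff] at h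
      obtain ⟨n, hn⟩ := ih h.2
      obtain ⟨m, hm⟩ := h.1
      refine ⟨max m n, fun x hx => ?_⟩
      rcases Finset.mem_insert.1 hx with rfl | hx
      · exact hmem m _ _ (le_max_left _ _) hm
      · exact hmem n _ _ (le_max_right _ _) (hn x hx)
  refine ⟨X, hXinf, ?_, ⟨p₀.i, ?_⟩, ?_⟩
  · rintro x ⟨n, hn⟩
    exact (p n).srt.2 x hn
  · intro F hF hFX
    obtain ⟨n, hn⟩ := hfin F hFX
    have h1 : (p n).i = p₀.i := by
      obtain ⟨E, -, -, -, -, -, h⟩ := hle 0 n (Nat.zero_le _)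
      rw [h, hp0]
    rw [← h1]
    refine (p n).hσ _ (mem_FSl.2 ⟨(p n).σ.filter (fun x => decide (x ∈ F)),
      List.filter_sublist, ?_, ?_⟩)
    · obtain ⟨a, ha⟩ := hF
      refine List.ne_nil_of_mem (a := a) ?_
      rw [List.mem_filter]
      exact ⟨hn a ha, by simpa using ha⟩
    · have h2 : ((p n).σ.filter (fun x => decide (x ∈ F))).toFinset = F := by
        ext x
        simp only [List.mem_toFinset, List.mem_filter, decide_eq_true_eq]
        exact ⟨fun h => h.2, fun h => ⟨hn x h, h⟩⟩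
      have h3 := List.sum_toFinset (fun x => x) ((hnd n).filter (fun x => decide (x ∈ F)))
      rw [h2] at h3
      rw [h3, List.map_id']
  · rintro j f ⟨Θ, hΘ, hmono, hf⟩ hdom
    have hΘ' : AR fun q : List Bool × ℕ => ∃ v : ℕ, Θ (q.1, q.2, v) :=
      AR.ex (hΘ.sub (f := fun q : (List Bool × ℕ) × ℕ => (q.1.1, q.1.2, q.2))
        (Primrec.pair (Primrec.fst.comp .fst) (Primrec.pair (Primrec.snd.comp .fst) .snd)))
    obtain ⟨n, hn⟩ := heS _ hΘ'
    have hdom' : ∀ m, (f m).Dom ↔ ∃ ℓ, ∃ v, Θ (bits X ℓ, m, v) := by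
      intro m
      rw [Part.dom_iff_mem]
      constructor
      · rintro ⟨v, hv⟩
        obtain ⟨ℓ, hℓ⟩ := (hf m v).1 hv
        exact ⟨ℓ, v, hℓ⟩
      · rintro ⟨ℓ, v, hℓ⟩
        exact ⟨v, (hf m v).2 ⟨ℓ, hℓ⟩⟩
    obtain ⟨m, hm⟩ := hnx3 (Nat.pair n j) (p (Nat.pair n j))
    rw [← hps, Nat.unpair_pair, hn] at hm
    rcases hm with ⟨⟨β, h1, ⟨a, ha, hβ⟩, h2⟩, h3⟩ | ⟨h1, h2⟩
    · refine h3 ((hdom m).2 ((hdom' m).2 ⟨β.length, ?_⟩))
      have h4 : β = bits X β.length := bits_eq fun i hi => by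
        rw [h2 i hi]
        exact (hinit _ a i ha (by omega)).symm
      rw [← h4]
      exact h1
    · obtain ⟨ℓ, v, hv⟩ := (hdom' m).1 ((hdom m).1 h1)
      obtain ⟨a, ⟨n', ha⟩, hℓ⟩ := hXinf.exists_gt ℓ
      have h3 := hmem n' (max n' (Nat.pair n j + 1)) a (le_max_left _ _) ha
      refine h2 (p (max n' (Nat.pair n j + 1))) (hle _ _ (le_max_right _ _))
        ⟨bits X ℓ, ⟨v, hv⟩, ⟨a, h3, ?_⟩, fun i hi => ?_⟩
      · rw [bits_length]
        exact hℓ.le
      · rw [bits_length] at hi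
        rw [bits_get, ← hinit _ a i h3 (by omega)]
        simp [hi]

end Pool.Agent.Work.MP_69fea5_lc.AC
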